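import Pool.Agent.Run7.h850.PC.Cor

set_option autoImplicit false

/-!
The numbers attached to the exponents of a system of rank four.
-/

open Finset

namespace Run7.h850.PE

open Run7.h850.PC Pool.Agent.TH571.PCV

/-- The first members of the six pairs. -/
def pr1 : Fin 6 → Fin 4 := ![0, 0, 0, 1, 1, 2]

/-- The second members of the six pairs. -/
def pr2 : Fin 6 → Fin 4 := ![1, 2, 3, 2, 3, 3]

/-- Twice the sum of `gam` over the fifty sums minus seven times the sum of `gam` over the twelve
differences and sixteen times the value at the difference at the special point. -/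
def exc63 (x y z : Fin 4 → ℚ) : ℚ :=
  2 * ∑ i, ∑ k, (gam (x i + y k + z 0) + gam (x i + y k + z 2)) +
    2 * ∑ t : Fin 3, ∑ q : Fin 6,
      gam ((x 0 + x t.succ) + (y (pr1 q) + y (pr2 q)) + (z 0 + z 2)) -
    7 * ∑ q : Fin 6, (gam (x (pr2 q) - x (pr1 q)) + gam (y (pr2 q) - y (pr1 q))) -
    16 * gam (z 2 - z 0)

/-- The differences of the exponents `x`, of the exponents `y`, and of the two exponents of `z`, and
the sums of three exponents, are not integers, and the sums of two triples which are different at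
every point are not integers. -/
def NonRes (x y z : Fin 4 → ℚ) : Prop :=
  (∀ l l', l ≠ l' → (x l - x l').den ≠ 1) ∧ (∀ l l', l ≠ l' → (y l - y l').den ≠ 1) ∧
    (z 2 - z 0).den ≠ 1 ∧ (∀ i k, (x i + y k + z 0).den ≠ 1) ∧
    (∀ i k, (x i + y k + z 2).den ≠ 1) ∧
    ∀ i i' k k', i ≠ i' → k ≠ k' → ((x i + x i') + (y k + y k') + (z 0 + z 2)).den ≠ 1

/-- All denominators are at least `269`. -/
def Large63 (x y z : Fin 4 → ℚ) : Prop :=
  (∀ l l', l ≠ l' → 269 ≤ (x l - x l').den) ∧ (∀ l l', l ≠ l' → 269 ≤ (y l - y l').den) ∧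
    269 ≤ (z 2 - z 0).den ∧ (∀ i k, 269 ≤ (x i + y k + z 0).den) ∧
    (∀ i k, 269 ≤ (x i + y k + z 2).den) ∧
    ∀ i i' k k', i ≠ i' → k ≠ k' → 269 ≤ ((x i + x i') + (y k + y k') + (z 0 + z 2)).den

/-- The denominator has no prime factors below `13`. -/
def Rough13 (q : ℚ) : Prop := ∀ p : ℕ, p.Prime → p ∣ q.den → 13 ≤ p

/-- The sums have denominators without prime factors below `13`, and the differences too, but none
of the denominators of the differences is a prime number below `347`. -/
def Rough63 (x y z : Fin 4 → ℚ) : Prop :=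
  (∀ l l', Rough13 (x l - x l') ∧ ((x l - x l').den.Prime → 347 ≤ (x l - x l').den)) ∧
    (∀ l l', Rough13 (y l - y l') ∧ ((y l - y l').den.Prime → 347 ≤ (y l - y l').den)) ∧
    (Rough13 (z 2 - z 0) ∧ ((z 2 - z 0).den.Prime → 347 ≤ (z 2 - z 0).den)) ∧
    (∀ i k, Rough13 (x i + y k + z 0)) ∧ (∀ i k, Rough13 (x i + y k + z 2)) ∧
    ∀ i i' k k', i ≠ i' → k ≠ k' → Rough13 ((x i + x i') + (y k + y k') + (z 0 + z 2))

end Run7.h850.PE
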