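import Pool.Agent.Run7.h850.PC.Unit
import Pool.Agent.TH295.PC.Gen

set_option autoImplicit false

/-!
The averaging argument for a general quadratic inequality.
-/

open Finset

namespace Run7.h850.PE

open Pool.Agent.TH571.PCV Run7.h850.PC Pool.Agent.W280.PC

/-- The sum of the tent function over the multiples by units. -/
theorem unit_tent_gen {t τ : ℝ} (hUS : ∀ d : ℕ, 2 ≤ d → US t d ≤ τ * d.totient) {N : ℕ} [NeZero N]
    {z : ℤ} (hz : ¬ (N : ℤ) ∣ z) :
    ∑ u : (ZMod N)ˣ, tent t ((((u : ZMod N).val : ℕ) : ℝ) * ((z : ℝ) / N)) ≤ τ * N.totient := by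
  classical
  have hN : 0 < N := Nat.pos_of_ne_zero (NeZero.ne N)
  set δ : ZMod N := (z : ZMod N) with hδ
  set k := δ.val with hk
  set d := Nat.gcd k N with hd
  have hd0 : 0 < d := Nat.gcd_pos_of_pos_right _ hN
  obtain ⟨n, hn⟩ : d ∣ N := Nat.gcd_dvd_right _ _
  obtain ⟨k', hk'⟩ : d ∣ k := Nat.gcd_dvd_left _ _
  have hn0 : 0 < n := by
    rcases Nat.eq_zero_or_pos n with h | h
    · rw [h, mul_zero] at hn; omega
    · exact h
  have : NeZero n := ⟨hn0.ne'⟩
  have hcop : Nat.Coprime k' n := by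
    have h1 : Nat.gcd (d * k') (d * n) = d := by rw [← hk', ← hn]
    rw [Nat.gcd_mul_left] at h1
    exact Nat.eq_of_mul_eq_mul_left hd0 (by rw [h1, mul_one])
  have hn2 : 2 ≤ n := by
    by_contra h
    have h1 : n = 1 := by omega
    apply hz
    rw [← ZMod.intCast_zmod_eq_zero_iff_dvd, ← hδ, ← ZMod.val_eq_zero, ← hk, hk']
    rw [h1, mul_one] at hn
    have h2 : k < N := ZMod.val_lt δ
    rw [hk', hn] at h2
    rcases Nat.eq_zero_or_pos k' with h3 | h3
    · rw [h3, mul_zero]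
    · exfalso
      have := Nat.le_mul_of_pos_right d h3
      omega
  have hnN : n ∣ N := ⟨d, by rw [hn, mul_comm]⟩
  let κ : (ZMod n)ˣ := ZMod.unitOfCoprime k' hcop
  -- the residue of the multiple
  have h1 : ∀ u : (ZMod N)ˣ, ((u : ZMod N) * δ).val =
      d * (((ZMod.unitsMap hnN u) * κ : (ZMod n)ˣ) : ZMod n).val := by
    intro u
    have h2 : ((u : ZMod N) * δ).val = ((u : ZMod N).val * k) % N := by rw [ZMod.val_mul]
    have h3 : (((ZMod.unitsMap hnN u) * κ : (ZMod n)ˣ) : ZMod n) =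
        (((u : ZMod N).val * k' : ℕ) : ZMod n) := by
      rw [Units.val_mul, ZMod.coe_unitOfCoprime, ZMod.unitsMap_val, Nat.cast_mul,
        ZMod.natCast_val]
    rw [h3, ZMod.val_natCast, h2, hk', mul_left_comm]
    generalize (u : ZMod N).val * k' = t
    rw [hn, Nat.mul_mod_mul_left]
  have hdr : (d : ℝ) ≠ 0 := by exact_mod_cast hd0.ne'
  have h4 : ∑ u : (ZMod N)ˣ, tent t ((((u : ZMod N).val : ℕ) : ℝ) * ((z : ℝ) / N)) =
      ∑ u : (ZMod N)ˣ, (fun v : (ZMod n)ˣ =>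
        tent t (((((v * κ : (ZMod n)ˣ) : ZMod n).val : ℕ) : ℝ) / n))
        (ZMod.unitsMap hnN u) := by
    refine Finset.sum_congr rfl fun u _ => ?_
    obtain ⟨j, hj⟩ := mul_val_div u z
    rw [hj, tent_add_int, ← hδ, h1 u]
    simp only
    congr 1
    have hNr : (N : ℝ) = d * n := by exact_mod_cast hn
    rw [hNr, Nat.cast_mul, mul_div_mul_left _ _ hdr]
  have h5 := sum_fiberR (ZMod.unitsMap hnN) (ZMod.unitsMap_surjective hnN)
    (fun v : (ZMod n)ˣ => tent t (((((v * κ : (ZMod n)ˣ) : ZMod n).val : ℕ) : ℝ) / n))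
  rw [← h4] at h5
  have h6 : ∑ v : (ZMod n)ˣ, tent t (((((v * κ : (ZMod n)ˣ) : ZMod n).val : ℕ) : ℝ) / n) =
      US t n := by
    have h12 := Equiv.sum_comp (Equiv.mulRight κ) (fun v : (ZMod n)ˣ =>
      tent t ((((v : ZMod n).val : ℕ) : ℝ) / n))
    simp only [Equiv.coe_mulRight] at h12
    rw [h12]
    exact sum_units_valR n (fun x => tent t ((x : ℝ) / n))
  rw [h6, ZMod.card_units_eq_totient, ZMod.card_units_eq_totient] at h5
  have h7 := hUS n hn2
  have hφ : (0 : ℝ) < n.totient := by exact_mod_cast Nat.totient_pos.2 hn0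
  have hφN : (0 : ℝ) ≤ N.totient := Nat.cast_nonneg _
  set S := ∑ u : (ZMod N)ˣ, tent t ((((u : ZMod N).val : ℕ) : ℝ) * ((z : ℝ) / N)) with hS
  have h8 : (n.totient : ℝ) * S ≤ n.totient * (τ * N.totient) := by
    calc (n.totient : ℝ) * S = N.totient * US t n := h5
      _ ≤ N.totient * (τ * n.totient) := mul_le_mul_of_nonneg_left h7 hφN
      _ = n.totient * (τ * N.totient) := by ring
  exact le_of_mul_le_mul_left h8 hφ

/-- The distance to the multiples of `N`. -/
def dst (N : ℕ) (v : ℤ) : ℤ := min (v % N) (N - v % N)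

lemma dst_nonneg {N : ℕ} (hN : 0 < N) (v : ℤ) : 0 ≤ dst N v := by
  have h0 : (N : ℤ) ≠ 0 := by exact_mod_cast hN.ne'
  have h1 := Int.emod_nonneg v h0
  have h2 := Int.emod_lt_of_pos v (by exact_mod_cast hN : (0 : ℤ) < N)
  exact le_min h1 (by linarith)

lemma far_dst {N : ℕ} (hN : 0 < N) {M v : ℤ} (h : M ≤ dst N v) :
    Pool.Agent.TH295.PC.Far N M v := by
  intro n
  have hN' : (0 : ℤ) < N := by exact_mod_cast hN
  have h1 := Int.emod_nonneg v hN'.ne'
  have h2 := Int.emod_lt_of_pos v hN'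
  have h3 := Int.emod_add_mul_ediv v N
  have h4 : M ≤ v % N := h.trans (min_le_left _ _)
  have h5 : M ≤ N - v % N := h.trans (min_le_right _ _)
  set q := v / (N : ℤ)
  set r := v % (N : ℤ)
  have h6 : v - n * N = r + (q - n) * N := by linear_combination -h3
  rw [h6]
  rcases le_or_gt n q with h7 | h7
  · have h8 : 0 ≤ (q - n) * N := mul_nonneg (by linarith) hN'.le
    rw [abs_of_nonneg (by linarith)]
    linarith
  · have h8 : (q - n) * N ≤ -1 * N := mul_le_mul_of_nonneg_right (by linarith) hN'.le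
    rw [abs_of_nonpos (by linarith)]
    linarith

lemma qf_int {N : ℕ} (hN : 0 < N) (v : ℤ) :
    (Q N v : ℝ) = -(N : ℝ) ^ 2 * qf ((v : ℝ) / N) := by
  rw [Pool.Agent.TH295.PC.Q_B hN]
  have h : qf ((v : ℝ) / N) = Int.fract ((v : ℝ) / N) * (1 - Int.fract ((v : ℝ) / N)) := rfl
  rw [h]
  unfold Pool.Agent.TH295.PC.B
  ring

lemma tent_ge {N : ℕ} (hN : 0 < N) (t : ℝ) (v : ℤ) :
    t - (dst N v : ℝ) / N ≤ tent t ((v : ℝ) / N) := by
  have hN' : (0 : ℤ) < N := by exact_mod_cast hN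
  have hNr : (0 : ℝ) < N := by exact_mod_cast hN
  have h1 := Int.emod_nonneg v hN'.ne'
  have h2 := Int.emod_lt_of_pos v hN'
  have h3 := Int.emod_add_mul_ediv v N
  have h4 : (v : ℝ) / N = ((v % (N : ℤ) : ℤ) : ℝ) / N + ((v / (N : ℤ) : ℤ) : ℝ) := by
    have h5 : (v : ℝ) = ((v % (N : ℤ) : ℤ) : ℝ) + N * ((v / (N : ℤ) : ℤ) : ℝ) := by
      have : (v : ℝ) = ((v % (N : ℤ) + N * (v / (N : ℤ)) : ℤ) : ℝ) := by rw [h3]
      rw [this]
      push_cast
      ring
    conv_lhs => rw [h5]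
    field_simp
  rw [h4, tent_add_int]
  unfold dst
  set r := v % (N : ℤ)
  have hr0 : (0 : ℝ) ≤ (r : ℝ) := by exact_mod_cast h1
  have hr1 : (r : ℝ) ≤ N := by exact_mod_cast h2.le
  unfold tent
  rw [nd_of_mem (by positivity) (by rw [div_le_one hNr]; exact hr1)]
  have h5 : min ((r : ℝ) / N) (1 - r / N) = ((min r (N - r) : ℤ) : ℝ) / N := by
    have h6 : (1 : ℝ) - r / N = ((N : ℝ) - r) / N := by field_simp
    rw [Int.cast_min, h6, min_div_div_right hNr.le]
    push_cast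
    rfl
  rw [h5]
  exact le_max_right _ _

section

variable {ι : Type*} [Fintype ι] [Nonempty ι] {N : ℕ} [NeZero N]

/-- **The averaging argument.** -/
theorem average_gen (z w : ι → ℤ) {K : ℕ} {τ C L : ℝ} (hC : 0 ≤ C)
    (hUS : ∀ d : ℕ, 2 ≤ d → US (1 / K) d ≤ τ * d.totient)
    (hz : ∀ i, ¬ (N : ℤ) ∣ z i) (B : Finset (ZMod N)ˣ)
    (hlow : ∀ u : (ZMod N)ˣ, -L ≤
      ∑ i, (w i : ℝ) * qf ((((u : ZMod N).val : ℕ) : ℝ) * ((z i : ℝ) / N)))
    (hpt : ∀ u ∉ B, ∀ M : ℤ, 0 ≤ M →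
      (∀ i, Pool.Agent.TH295.PC.Far N M ((((u : ZMod N).val : ℕ) : ℤ) * z i)) →
      ((∑ i, w i * Q N ((((u : ZMod N).val : ℕ) : ℤ) * z i) : ℤ) : ℝ) ≤ -(C * M * N)) :
    (C * (1 / K - Fintype.card ι * τ) -
      (∑ i, (w i : ℝ) * (1 - ((gam ((z i : ℚ) / N) : ℚ) : ℝ))) / 6) * N.totient ≤
      (L + C / K) * B.card := by
  classical
  have hN : 0 < N := Nat.pos_of_ne_zero (NeZero.ne N)
  have hNr : (0 : ℝ) < N := by exact_mod_cast hN
  set KK : (ZMod N)ˣ → ℝ := fun u =>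
    ∑ i, (w i : ℝ) * qf ((((u : ZMod N).val : ℕ) : ℝ) * ((z i : ℝ) / N)) with hKK
  set T : (ZMod N)ˣ → ℝ := fun u =>
    ∑ i, tent (1 / K) ((((u : ZMod N).val : ℕ) : ℝ) * ((z i : ℝ) / N)) with hT
  have hT0 : ∀ u, 0 ≤ T u := fun u => sum_nonneg fun _ _ => tent_nonneg _ _
  have hTs : ∑ u, T u ≤ Fintype.card ι * τ * N.totient := by
    simp only [hT]
    rw [sum_comm]
    refine (sum_le_sum fun i _ => unit_tent_gen hUS (hz i)).trans (le_of_eq ?_)
    rw [sum_const, card_univ, nsmul_eq_mul]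
    ring
  have hlow2 : ∀ u : (ZMod N)ˣ, C * (1 / K - T u) - (if u ∈ B then (L + C / K) else 0) ≤ KK u := by
    intro u
    split_ifs with hu
    · have h1 := hlow u
      have h2 := mul_nonneg hC (hT0 u)
      have h3 : C * (1 / K - T u) = C / K - C * T u := by ring
      rw [h3]
      simp only [hKK]
      linarith
    · rw [sub_zero]
      obtain ⟨i0, -, hi0⟩ := exists_min_image univ
        (fun i => dst N ((((u : ZMod N).val : ℕ) : ℤ) * z i)) ⟨Classical.arbitrary ι, mem_univ _⟩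
      set M := dst N ((((u : ZMod N).val : ℕ) : ℤ) * z i0) with hM
      have h1 := hpt u hu M (dst_nonneg hN _) fun i => far_dst hN (hi0 i (mem_univ _))
      have h2 : 1 / K - T u ≤ (M : ℝ) / N := by
        have h3 := tent_ge hN (1 / K) ((((u : ZMod N).val : ℕ) : ℤ) * z i0)
        rw [← hM] at h3
        have h4 : tent (1 / K) ((((((u : ZMod N).val : ℕ) : ℤ) * z i0 : ℤ) : ℝ) / N) ≤ T u := by
          have h5 := single_le_sum (f := fun i =>
            tent (1 / K) ((((u : ZMod N).val : ℕ) : ℝ) * ((z i : ℝ) / N)))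
            (fun _ _ => tent_nonneg _ _) (mem_univ i0)
          refine le_trans (le_of_eq ?_) h5
          congr 1
          push_cast
          ring
        linarith
      have h6 : ((∑ i, w i * Q N ((((u : ZMod N).val : ℕ) : ℤ) * z i) : ℤ) : ℝ) =
          -(N : ℝ) ^ 2 * KK u := by
        push_cast
        simp only [hKK]
        rw [mul_sum]
        refine sum_congr rfl fun i _ => ?_
        rw [qf_int hN]
        push_cast
        rw [mul_div_assoc]
        ring
      rw [h6] at h1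
      have h7 : C * M * N ≤ (N : ℝ) ^ 2 * KK u := by linarith
      have h8 : C * ((M : ℝ) / N) ≤ KK u := by
        rw [mul_div_assoc', div_le_iff₀ hNr]
        have h9 : C * M * N ≤ KK u * N * N := by linarith
        exact le_of_mul_le_mul_right h9 hNr
      exact (mul_le_mul_of_nonneg_left h2 hC).trans h8
  have hsum := sum_le_sum fun u (_ : u ∈ univ (α := (ZMod N)ˣ)) => hlow2 u
  have h1 : 6 * ∑ u, KK u = (∑ i, (w i : ℝ) * (1 - ((gam ((z i : ℚ) / N) : ℚ) : ℝ))) * N.totient := by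
    simp only [hKK]
    rw [sum_comm, mul_sum, sum_mul]
    refine sum_congr rfl fun i _ => ?_
    rw [← mul_sum]
    have h2 := unit_qf (N := N) (z i)
    linear_combination (w i : ℝ) * h2
  have h2 : ∑ u : (ZMod N)ˣ, (C * (1 / K - T u) - (if u ∈ B then (L + C / K) else 0)) =
      C * (1 / K * N.totient - ∑ u, T u) - (L + C / K) * B.card := by
    rw [sum_sub_distrib, ← mul_sum, sum_sub_distrib, sum_const, card_univ,
      ZMod.card_units_eq_totient, nsmul_eq_mul, ← sum_filter, sum_const, nsmul_eq_mul,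
      filter_mem_eq_inter, univ_inter]
    ring
  rw [h2] at hsum
  have h3 := mul_le_mul_of_nonneg_left hTs hC
  linarith

end

end Run7.h850.PE
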