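import Pool.Agent.Run7.h850.PC.Good

set_option autoImplicit false

/-!
The mean of the tent function with half-width `1 / K` over the primitive fractions with a given
denominator: reduction to a finite computation.
-/

open Finset

namespace Run7.h850.PE

open Run7.h850.PC

/-- The divisor `r` of `d` can be used. -/
def GoodG (K a b d r : ℕ) : Prop :=
  0 < r ∧ r ∣ d ∧ a * (d / r).totient * (4 * r ^ 2 + K ^ 2) ≤ b * r * d.totient

instance (K a b d r : ℕ) : Decidable (GoodG K a b d r) := by unfold GoodG; infer_instance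

lemma US_of_goodG {K a b d r : ℕ} (hK : 2 ≤ K) (hd : 0 < d) (h : GoodG K a b d r) :
    4 * K ^ 2 * a * US (1 / K) d ≤ b * d.totient := by
  obtain ⟨hr, ⟨D, rfl⟩, h3⟩ := h
  rw [Nat.mul_div_cancel_left _ hr] at h3
  have hD : 0 < D := Nat.pos_of_mul_pos_left hd
  rw [mul_comm r D] at h3 ⊢
  have hK0 : (0 : ℝ) < K := by exact_mod_cast (by omega : 0 < K)
  have hK2 : (2 : ℝ) ≤ K := by exact_mod_cast hK
  have h4 := US_le (t := 1 / K) (by positivity)
    (by rw [div_le_div_iff₀ hK0 (by norm_num)]; linarith) hD hr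
  have hr0 : (0 : ℝ) < r := by exact_mod_cast hr
  have h5 : (a : ℝ) * D.totient * (4 * r ^ 2 + K ^ 2) ≤ b * r * (D * r).totient := by
    exact_mod_cast h3
  have h6 : 4 * K ^ 2 * a * (D.totient * ((r : ℝ) * (1 / K) ^ 2 + 1 / (4 * r))) =
      (a * D.totient * (4 * r ^ 2 + K ^ 2)) / r := by
    field_simp
  have h7 : ((a : ℝ) * (D.totient : ℝ) * (4 * r ^ 2 + K ^ 2)) / r ≤ b * (D * r).totient := by
    rw [div_le_iff₀ (by positivity)]
    linarith
  calc 4 * (K : ℝ) ^ 2 * a * US (1 / K) (D * r)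
      ≤ 4 * K ^ 2 * a * (D.totient * ((r : ℝ) * (1 / K) ^ 2 + 1 / (4 * r))) :=
        mul_le_mul_of_nonneg_left h4 (by positivity)
    _ = _ := h6
    _ ≤ _ := h7

/-- Multiples. -/
lemma GoodG.mul {K a b d r : ℕ} (h : GoodG K a b d r) (hd : 0 < d) {n : ℕ} (hn : 0 < n)
    (hdn : d ∣ n) : GoodG K a b n r := by
  obtain ⟨hr, ⟨c, rfl⟩, h3⟩ := h
  obtain ⟨k, rfl⟩ := hdn
  have hc : 0 < c := Nat.pos_of_mul_pos_left hd
  have hk : 0 < k := Nat.pos_of_mul_pos_left hn
  refine ⟨hr, ⟨c * k, by ring⟩, ?_⟩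
  rw [Nat.mul_div_cancel_left _ hr] at h3
  rw [mul_assoc r c k, Nat.mul_div_cancel_left _ hr, ← mul_assoc r c k]
  have h4 := tot_ineq hc hk hr
  have h5 : 0 < c.totient := Nat.totient_pos.2 hc
  refine Nat.le_of_mul_le_mul_right (c := c.totient) ?_ h5
  calc a * (c * k).totient * (4 * r ^ 2 + K ^ 2) * c.totient
      = (c * k).totient * (a * c.totient * (4 * r ^ 2 + K ^ 2)) := by ring
    _ ≤ (c * k).totient * (b * r * (r * c).totient) := Nat.mul_le_mul_left _ h3
    _ = b * r * ((c * k).totient * (r * c).totient) := by ring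
    _ ≤ b * r * ((r * c * k).totient * c.totient) := Nat.mul_le_mul_left _ h4
    _ = b * r * (r * c * k).totient * c.totient := by ring

/-- The value of the tent function in integers. -/
lemma tent_intG {K d x : ℕ} (hK : 0 < K) (hd : 0 < d) (hx : x ≤ d) :
    K * d * tent (1 / K) ((x : ℝ) / d) = ((d - K * min x (d - x) : ℕ) : ℝ) := by
  have hd0 : (0 : ℝ) < d := by exact_mod_cast hd
  have hK0 : (0 : ℝ) < K := by exact_mod_cast hK
  have hx' : (x : ℝ) ≤ d := by exact_mod_cast hx
  unfold tent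
  rw [nd_of_mem (by positivity) (by rw [div_le_one hd0]; exact hx')]
  have h1 : min ((x : ℝ) / d) (1 - x / d) = ((min x (d - x) : ℕ) : ℝ) / d := by
    have h2 : (1 : ℝ) - x / d = ((d : ℝ) - x) / d := by field_simp
    rw [Nat.cast_min, Nat.cast_sub hx, h2, min_div_div_right hd0.le]
  rw [h1]
  generalize min x (d - x) = y
  rcases le_or_gt (K * y) d with h | h
  · have h2 : (K * y : ℝ) ≤ d := by exact_mod_cast h
    rw [Nat.cast_sub h, max_eq_right]
    · push_cast
      field_simp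
    · rw [sub_nonneg, div_le_div_iff₀ hd0 hK0]
      linarith
  · have h2 : (d : ℝ) < K * y := by exact_mod_cast h
    rw [Nat.sub_eq_zero_of_le h.le, max_eq_left]
    · simp
    · rw [sub_nonpos, div_le_div_iff₀ hK0 hd0]
      linarith

/-- Small denominators, in integers. -/
lemma US_of_small {K a b d : ℕ} (hK : 0 < K) (hd : 0 < d)
    (h : 4 * K * a * ∑ x ∈ (range d).filter (fun x => d.Coprime x), (d - K * min x (d - x)) ≤
      b * d * d.totient) : 4 * K ^ 2 * a * US (1 / K) d ≤ b * d.totient := by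
  have hd0 : (0 : ℝ) < d := by exact_mod_cast hd
  have h2 : K * d * US (1 / K) d = ((∑ x ∈ (range d).filter (fun x => d.Coprime x),
      (d - K * min x (d - x)) : ℕ) : ℝ) := by
    unfold US
    rw [mul_sum, Nat.cast_sum]
    refine sum_congr rfl fun x hx => ?_
    exact tent_intG hK hd (mem_range.1 (mem_filter.1 hx).1).le
  have h3 : (4 : ℝ) * K * a * ((∑ x ∈ (range d).filter (fun x => d.Coprime x),
      (d - K * min x (d - x)) : ℕ) : ℝ) ≤ b * d * d.totient := by exact_mod_cast h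
  rw [← h2] at h3
  have h4 : d * (4 * (K : ℝ) ^ 2 * a * US (1 / K) d) ≤ d * (b * d.totient) := by linarith
  exact le_of_mul_le_mul_left h4 hd0

/-- The primes below `71`. -/
def SP : List ℕ := [2, 3, 5, 7, 11, 13, 17, 19, 23, 29, 31, 37, 41, 43, 47, 53, 59, 61, 67]

lemma SP_prime : ∀ p ∈ SP, p.Prime := by decide +kernel

lemma mem_SP : ∀ p, p < 71 → p.Prime → p ∈ SP := by decide +kernel

/-- The product of the primes below `p`. -/
def below (p : ℕ) : ℕ := (SP.filter (· < p)).prod

lemma lt_of_dvd_below {p l : ℕ} (hl : l.Prime) (h : l ∣ below p) : l < p := by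
  unfold below at h
  rw [Prime.dvd_prod_iff hl.prime] at h
  obtain ⟨q, hq, hlq⟩ := h
  rw [List.mem_filter] at hq
  have h1 := (Nat.prime_dvd_prime_iff_eq hl (SP_prime q hq.1)).1 hlq
  subst h1
  simpa using hq.2

end Run7.h850.PE
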