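import Pool.Agent.Run7.h850.PE.Smooth2

set_option autoImplicit false

/-!
The mean of the tent function with half-width `1 / 255`.
-/

open Finset

namespace Run7.h850.PE.R

open Run7.h850.PC

/-- The smooth numbers that can be used. -/
def L255 : List (ℕ × ℕ) :=
  [(161, 161), (169, 169), (185, 185), (187, 187), (203, 203), (205, 205), (209, 209),
   (213, 213), (215, 215), (217, 217), (219, 219), (221, 221), (235, 235), (237, 237),
   (243, 243), (245, 245), (247, 247), (249, 249), (253, 253), (256, 128), (259, 259),
   (261, 261), (265, 265), (267, 267), (268, 134), (272, 136), (275, 275), (279, 279),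
   (284, 142), (287, 287), (289, 289), (291, 291), (292, 146), (295, 295), (296, 148),
   (297, 297), (299, 299), (301, 301), (303, 303), (304, 152), (305, 305), (309, 309),
   (316, 158), (319, 319), (320, 160), (321, 321), (323, 323), (325, 325), (327, 327),
   (328, 164), (329, 329), (332, 166), (333, 333), (335, 335), (339, 339), (340, 170),
   (341, 341), (343, 343), (344, 172), (351, 351), (352, 176), (355, 355), (356, 178),
   (357, 357), (361, 361), (363, 363), (364, 182), (365, 365), (368, 184), (369, 369),
   (371, 371), (375, 375), (376, 188), (377, 377), (380, 190), (385, 385), (387, 129),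
   (388, 194), (391, 391), (392, 196), (395, 395), (399, 399), (400, 200), (403, 403),
   (404, 202), (405, 405), (407, 407), (412, 206), (413, 413), (415, 415), (416, 208),
   (423, 141), (424, 212), (425, 425), (427, 427), (428, 214), (429, 429), (432, 216),
   (436, 218), (437, 437), (440, 220), (441, 147), (445, 445), (448, 224), (451, 451),
   (452, 226), (455, 455), (456, 228), (459, 153), (460, 230), (464, 232), (465, 465),
   (468, 234), (469, 469), (472, 236), (473, 473), (475, 475), (477, 159), (481, 481),
   (484, 242), (485, 485), (488, 244), (493, 493), (496, 248), (497, 497), (505, 505),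
   (511, 511), (513, 171), (515, 515), (517, 517), (520, 260), (527, 527), (528, 264),
   (529, 529), (531, 177), (532, 266), (533, 533), (535, 535), (539, 539), (545, 545),
   (549, 183), (551, 551), (552, 276), (553, 553), (559, 559), (560, 280), (565, 565),
   (567, 189), (572, 286), (575, 575), (576, 288), (580, 290), (581, 581), (583, 583),
   (585, 195), (589, 589), (595, 595), (603, 201), (605, 605), (611, 611), (612, 306),
   (616, 308), (620, 310), (621, 207), (623, 623), (625, 125), (629, 629), (637, 637),
   (649, 649), (665, 665), (667, 667), (671, 671), (672, 336), (675, 225), (679, 679),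
   (689, 689), (693, 231), (697, 697), (700, 350), (703, 703), (707, 707), (713, 713),
   (715, 715), (721, 721), (725, 145), (731, 731), (737, 737), (749, 749), (756, 378),
   (763, 763), (765, 255), (767, 767), (775, 155), (779, 779), (781, 781), (791, 791),
   (793, 793), (799, 799), (803, 803), (817, 817), (819, 273), (833, 833), (841, 841),
   (847, 847), (851, 851), (855, 285), (869, 869), (871, 871), (875, 175), (893, 893),
   (899, 899), (900, 450), (901, 901), (913, 913), (923, 923), (931, 133), (943, 943),
   (945, 315), (949, 949), (961, 961), (979, 979), (989, 989), (1001, 1001), (1003, 1003),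
   (1007, 1007), (1027, 1027), (1035, 345), (1037, 1037), (1067, 1067), (1073, 1073),
   (1079, 1079), (1080, 180), (1081, 1081), (1111, 1111), (1121, 1121), (1133, 1133),
   (1139, 1139), (1147, 1147), (1157, 1157), (1159, 1159), (1177, 1177), (1189, 1189),
   (1199, 1199), (1207, 1207), (1219, 1219), (1241, 1241), (1243, 1243), (1247, 1247),
   (1260, 210), (1261, 1261), (1271, 1271), (1273, 1273), (1313, 1313), (1331, 1331),
   (1333, 1333), (1339, 1339), (1343, 1343), (1349, 1349), (1357, 1357), (1363, 1363),
   (1369, 1369), (1387, 1387), (1391, 1391), (1403, 1403), (1411, 1411), (1417, 1417),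
   (1440, 240), (1457, 1457), (1469, 1469), (1501, 1501), (1513, 1513), (1517, 1517),
   (1537, 1537), (1541, 1541), (1573, 143), (1575, 315), (1577, 1577), (1591, 1591),
   (1633, 1633), (1643, 1643), (1649, 1649), (1679, 1679), (1681, 1681), (1691, 1691),
   (1711, 1711), (1717, 1717), (1739, 1739), (1751, 1751), (1763, 1763), (1769, 1769),
   (1817, 1817), (1819, 1819), (1829, 1829), (1843, 1843), (1849, 1849), (1853, 1853),
   (1891, 1891), (1909, 1909), (1919, 1919), (1921, 1921), (1927, 1927), (1943, 1943),
   (1957, 1957), (1961, 1961), (1980, 330), (2021, 2021), (2033, 2033), (2047, 2047),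
   (2059, 2059), (2071, 2071), (2077, 2077), (2117, 2117), (2147, 2147), (2173, 2173),
   (2183, 2183), (2201, 2201), (2209, 2209), (2231, 2231), (2257, 2257), (2263, 2263),
   (2279, 2279), (2291, 2291), (2323, 2323), (2369, 2369), (2407, 2407), (2419, 2419),
   (2449, 2449), (2461, 2461), (2479, 2479), (2491, 2491), (2501, 2501), (2507, 2507),
   (2537, 2537), (2573, 2573), (2581, 2581), (2599, 2599), (2623, 2623), (2627, 2627),
   (2701, 2701), (2747, 2747), (2759, 2759), (2773, 2773), (2809, 2809), (2813, 2813),
   (2867, 2867), (2881, 2881), (2911, 2911), (2923, 2923), (2929, 2929), (2987, 2987),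
   (2993, 2993), (3007, 3007), (3053, 3053), (3071, 3071), (3103, 3103), (3127, 3127),
   (3131, 3131), (3139, 3139), (3149, 3149), (3161, 3161), (3193, 3193), (3233, 3233),
   (3239, 3239), (3277, 3277), (3293, 3293), (3317, 3317), (3337, 3337), (3379, 3379),
   (3397, 3397), (3403, 3403), (3431, 3431), (3481, 3481), (3503, 3503), (3551, 3551),
   (3569, 3569), (3589, 3589), (3599, 3599), (3649, 3649), (3713, 3713), (3721, 3721),
   (3737, 3737), (3763, 3763), (3811, 3811), (3827, 3827), (3869, 3869), (3901, 3901),
   (3953, 3953), (3959, 3959), (3977, 3977), (4033, 4033), (4087, 4087), (4141, 4141),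
   (4171, 4171), (4181, 4181), (4183, 4183), (4187, 4187), (4189, 4189), (4223, 4223),
   (4307, 4307), (4331, 4331), (4343, 4343), (4387, 4387), (4399, 4399), (4429, 4429),
   (4453, 4453), (4469, 4469), (4489, 4489), (4559, 4559), (4601, 4601), (4633, 4633),
   (4661, 4661), (4687, 4687), (4717, 4717), (4747, 4747), (4757, 4757), (4819, 4819),
   (4841, 4841), (4859, 4859), (4891, 4891), (4897, 4897), (5029, 5029), (5041, 5041),
   (5063, 5063), (5123, 5123), (5141, 5141), (5183, 5183), (5251, 5251), (5293, 5293),
   (5311, 5311), (5329, 5329), (5353, 5353), (5429, 5429), (5459, 5459), (5561, 5561),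
   (5609, 5609), (5671, 5671), (5723, 5723), (5767, 5767), (5777, 5777), (5893, 5893),
   (5917, 5917), (5959, 5959), (5963, 5963), (5989, 5989), (6059, 6059), (6077, 6077),
   (6161, 6161), (6241, 6241), (6283, 6283), (6313, 6313), (6319, 6319), (6431, 6431),
   (6497, 6497), (6499, 6499), (6527, 6527), (6557, 6557), (6649, 6649), (6667, 6667),
   (6767, 6767), (6887, 6887), (6889, 6889), (6893, 6893), (6901, 6901), (7031, 7031),
   (7081, 7081), (7169, 7169), (7171, 7171), (7303, 7303), (7313, 7313), (7373, 7373),
   (7387, 7387), (7519, 7519), (7571, 7571), (7597, 7597), (7663, 7663), (7739, 7739),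
   (7811, 7811), (7921, 7921), (7957, 7957), (7979, 7979), (8023, 8023), (8051, 8051),
   (8137, 8137), (8249, 8249), (8383, 8383), (8453, 8453), (8549, 8549), (8611, 8611),
   (8633, 8633), (8881, 8881), (8927, 8927), (8989, 8989), (9047, 9047), (9167, 9167),
   (9379, 9379), (9409, 9409), (9523, 9523), (9701, 9701), (9797, 9797), (9991, 9991),
   (10057, 10057), (10201, 10201), (10379, 10379), (10403, 10403), (10573, 10573),
   (10609, 10609), (10807, 10807), (10961, 10961), (11009, 11009), (11021, 11021),
   (11227, 11227), (11413, 11413), (11449, 11449), (11639, 11639), (11663, 11663),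
   (11881, 11881), (12091, 12091), (12317, 12317), (12769, 12769)]

lemma L255_all : (L255.all fun q => goodB 255 252 2125 q) = true := by decide +kernel

lemma row255_2 : rowB 1050 L255 2 (below 2) = true := by decide +kernel

lemma row255_3 : rowB 1050 L255 3 (below 3) = true := by decide +kernel

lemma row255_5 : rowB 1050 L255 5 (below 5) = true := by decide +kernel

lemma row255_7 : rowB 1050 L255 7 (below 7) = true := by decide +kernel

lemma row255_11 : rowB 1050 L255 11 (below 11) = true := by decide +kernel

lemma row255_13 : rowB 1050 L255 13 (below 13) = true := by decide +kernel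

lemma row255_17 : rowB 1050 L255 17 (below 17) = true := by decide +kernel

lemma row255_19 : rowB 1050 L255 19 (below 19) = true := by decide +kernel

lemma row255_23 : rowB 1050 L255 23 (below 23) = true := by decide +kernel

lemma row255_29 : rowB 1050 L255 29 (below 29) = true := by decide +kernel

lemma row255_31 : rowB 1050 L255 31 (below 31) = true := by decide +kernel

lemma row255_37 : rowB 1050 L255 37 (below 37) = true := by decide +kernel

lemma row255_41 : rowB 1050 L255 41 (below 41) = true := by decide +kernel

lemma row255_43 : rowB 1050 L255 43 (below 43) = true := by decide +kernel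

lemma row255_47 : rowB 1050 L255 47 (below 47) = true := by decide +kernel

lemma row255_53 : rowB 1050 L255 53 (below 53) = true := by decide +kernel

lemma row255_59 : rowB 1050 L255 59 (below 59) = true := by decide +kernel

lemma row255_61 : rowB 1050 L255 61 (below 61) = true := by decide +kernel

lemma row255_67 : rowB 1050 L255 67 (below 67) = true := by decide +kernel

lemma row255_71 : rowB 1050 L255 71 (below 71) = true := by decide +kernel

lemma row255_73 : rowB 1050 L255 73 (below 73) = true := by decide +kernel

lemma row255_79 : rowB 1050 L255 79 (below 79) = true := by decide +kernel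

lemma row255_83 : rowB 1050 L255 83 (below 83) = true := by decide +kernel

lemma row255_89 : rowB 1050 L255 89 (below 89) = true := by decide +kernel

lemma row255_97 : rowB 1050 L255 97 (below 97) = true := by decide +kernel

lemma row255_101 : rowB 1050 L255 101 (below 101) = true := by decide +kernel

lemma row255_103 : rowB 1050 L255 103 (below 103) = true := by decide +kernel

lemma row255_107 : rowB 1050 L255 107 (below 107) = true := by decide +kernel

lemma row255_109 : rowB 1050 L255 109 (below 109) = true := by decide +kernel

lemma row255_113 : rowB 1050 L255 113 (below 113) = true := by decide +kernel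

lemma row255 : ∀ p ∈ SQ, rowB 1050 L255 p (below p) = true := by
  intro p hp
  unfold SQ at hp
  fin_cases hp
  · exact row255_2
  · exact row255_3
  · exact row255_5
  · exact row255_7
  · exact row255_11
  · exact row255_13
  · exact row255_17
  · exact row255_19
  · exact row255_23
  · exact row255_29
  · exact row255_31
  · exact row255_37
  · exact row255_41
  · exact row255_43
  · exact row255_47
  · exact row255_53
  · exact row255_59
  · exact row255_61
  · exact row255_67
  · exact row255_71
  · exact row255_73
  · exact row255_79
  · exact row255_83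
  · exact row255_89
  · exact row255_97
  · exact row255_101
  · exact row255_103
  · exact row255_107
  · exact row255_109
  · exact row255_113

lemma good_prime255 {p : ℕ} (hp : p.Prime) (h : 127 ≤ p) : GoodG 255 252 2125 p p := by
  refine ⟨hp.pos, dvd_rfl, ?_⟩
  rw [Nat.div_self hp.pos, Nat.totient_one, Nat.totient_prime hp]
  obtain ⟨k, rfl⟩ : ∃ k, p = k + 127 := ⟨p - 127, by omega⟩
  have : k + 127 - 1 = k + 126 := by omega
  rw [this]
  nlinarith

lemma small255_a : ((List.range 350).all fun n => smallB 255 252 2125 (n + 2)) = true := by
  decide +kernel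

lemma small255_b : ((List.range 350).all fun n => smallB 255 252 2125 (n + 352)) = true := by
  decide +kernel

lemma small255_c : ((List.range 350).all fun n => smallB 255 252 2125 (n + 702)) = true := by
  decide +kernel

/-- **The mean of the tent function.** -/
theorem US_255 (d : ℕ) (hd : 2 ≤ d) : US (1 / (255 : ℕ)) d ≤ 5 / 154224 * d.totient := by
  have h : 4 * ((255 : ℕ) : ℝ) ^ 2 * (252 : ℕ) * US (1 / (255 : ℕ)) d ≤
      (2125 : ℕ) * d.totient := by
    by_cases hp : ∃ p, p.Prime ∧ p ∣ d ∧ 127 ≤ p
    · obtain ⟨p, hp, hpd, h⟩ := hp
      exact US_of_goodG (by norm_num) (by omega) ((good_prime255 hp h).mul hp.pos (by omega) hpd)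
    rcases Nat.lt_or_ge 1050 d with h | h
    · push Not at hp
      obtain ⟨q, hq, hqd⟩ := exists_in_list (by norm_num) L255 row255 d h hp
      obtain ⟨h1, h2⟩ := good_of_goodB (List.all_eq_true.1 L255_all q hq)
      exact US_of_goodG (by norm_num) (by omega) (h1.mul h2 (by omega) hqd)
    · refine US_of_small (by norm_num) (by omega) ?_
      have h3 : smallB 255 252 2125 d = true := by
        rcases Nat.lt_or_ge d 352 with h4 | h4
        · have h1 := List.all_eq_true.1 small255_a (d - 2) (List.mem_range.2 (by omega))
          rwa [show d - 2 + 2 = d by omega] at h1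
        rcases Nat.lt_or_ge d 702 with h5 | h5
        · have h1 := List.all_eq_true.1 small255_b (d - 352) (List.mem_range.2 (by omega))
          rwa [show d - 352 + 352 = d by omega] at h1
        · have h1 := List.all_eq_true.1 small255_c (d - 702) (List.mem_range.2 (by omega))
          rwa [show d - 702 + 702 = d by omega] at h1
      rcases small_of_smallB (by omega) (by omega) h3 with h4 | h4
      · exact absurd h4 hp
      · exact h4
  push_cast at h
  push_cast
  linarith

end Run7.h850.PE.R
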