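import Pool.Agent.Run7.h850.PE.Gen
import Pool.Agent.Run7.h850.PE.Tau255
import Pool.Agent.Run7.h850.PC.Cor
import Pool.Agent.TH295.PC.Sys7
import Pool.Agent.W280.PE.Affine4

set_option autoImplicit false
set_option linter.unusedSimpArgs false

/-!
Systems of rank four with three points, the exponents at one point being equal in pairs.
-/

open Finset

namespace Run7.h850.PE

open Pool.Agent.TH571.PCV Run7.h850.PC Pool.Agent.W280.PC Pool.Agent.W280.PE Pool.Agent.W432.PC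
open Pool.Agent.TH295.PC (Far I7 z7 w7 pa pb pab pab_surj point7M psi7_eq sum_w7)

/-- The pointwise inequality for the sixty-three numbers. -/
theorem point63 {D : ℕ} (hD0 : 0 < D) {e1 e2 e3 : Fin 4 → ℤ}
    (hd0 : (D : ℤ) ∣ e3 0 - e3 1) (hd1 : (D : ℤ) ∣ e3 2 - e3 3)
    (hsum : ∑ l, e1 l + ∑ l, e2 l + ∑ l, e3 l = 0) {c : ℤ} (hc : IsCoprime c (D : ℤ))
    (hU : ∃ X Y C, Good D e1 e2 e3 c X Y C) {M : ℤ} (hM : 0 ≤ M)
    (hF : ∀ i, Far D M (c * z7 e1 e2 (e3 0) (e3 2) i)) :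
    ∑ i, w7 i * Q D (c * z7 e1 e2 (e3 0) (e3 2) i) ≤ -(66 * M * D) := by
  have hrel : (D : ℤ) ∣ ∑ l, e1 l + ∑ l, e2 l + 2 * (e3 0 + e3 2) := by
    rw [Fin.sum_univ_four (f := e3)] at hsum
    obtain ⟨m, hm⟩ := hd0
    obtain ⟨n, hn⟩ := hd1
    exact ⟨m + n, by linear_combination hsum + hm + hn⟩
  obtain ⟨X, Y, C, hgood⟩ := hU
  have f0 : ∀ g : Fin 2, ∀ l l' : Fin 4, l ≠ l' →
      Far D M (c * ((![e1, e2] g) l - (![e1, e2] g) l')) := by
    intro g l l' hne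
    obtain ⟨q, ⟨rfl, rfl⟩ | ⟨rfl, rfl⟩⟩ := pab_surj l l' hne
    · have := (hF (Sum.inl (g, q))).neg
      change Far D M (-(c * ((![e1, e2] g) (pb q) - (![e1, e2] g) (pa q)))) at this
      rwa [show -(c * ((![e1, e2] g) (pb q) - (![e1, e2] g) (pa q))) =
        c * ((![e1, e2] g) (pa q) - (![e1, e2] g) (pb q)) by ring] at this
    · exact hF (Sum.inl (g, q))
  have fF : ∀ i k, ∀ s : Fin 2, Far D M (c * (e1 i + e2 k + ![e3 0, e3 2] s)) :=
    fun i k s => hF (Sum.inr (Sum.inr (Sum.inl (i, k, s))))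
  have fG0 : ∀ (t : Fin 3) (q : Fin 6), Far D M (c * ((e1 0 + e1 t.succ) +
      (e2 (pa q) + e2 (pb q)) + (e3 0 + e3 2))) :=
    fun t q => hF (Sum.inr (Sum.inr (Sum.inr (t, q))))
  have fG1 : ∀ (t : Fin 3) (k k' : Fin 4), k ≠ k' → Far D M (c * ((e1 0 + e1 t.succ) +
      (e2 k + e2 k') + (e3 0 + e3 2))) := by
    intro t k k' hne
    obtain ⟨q, ⟨rfl, rfl⟩ | ⟨rfl, rfl⟩⟩ := pab_surj k k' hne
    · exact fG0 t q
    · rw [add_comm (e2 (pb q))]; exact fG0 t q
  have fG : ∀ i i' k k', i ≠ i' → k ≠ k' → Far D M (c * ((e1 i + e1 i') +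
      (e2 k + e2 k') + (e3 0 + e3 2))) := by
    intro i i' k k' hi hk
    have hcase : (∃ t : Fin 3, (i = 0 ∧ i' = t.succ) ∨ (i' = 0 ∧ i = t.succ)) ∨
        (∃ t : Fin 3, ∃ j j' : Fin 4, j ≠ j' ∧ ∀ f : Fin 4 → ℤ,
          f i + f i' = ∑ l, f l - (f 0 + f t.succ)) := by
      by_cases h0 : i = 0 ∨ i' = 0
      · left
        rcases h0 with h0 | h0
        · obtain ⟨t, ht⟩ := Fin.exists_succ_eq.2 (fun h => hi (h0.trans h.symm) : i' ≠ 0)
          exact ⟨t, Or.inl ⟨h0, ht.symm⟩⟩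
        · obtain ⟨t, ht⟩ := Fin.exists_succ_eq.2 (fun h => hi (h.trans h0.symm) : i ≠ 0)
          exact ⟨t, Or.inr ⟨h0, ht.symm⟩⟩
      · right
        push Not at h0
        have hex : ∀ i i' : Fin 4, i ≠ i' → i ≠ 0 → i' ≠ 0 → ∃ t : Fin 3,
            (t.succ ≠ i ∧ t.succ ≠ i') := by decide
        obtain ⟨t, ht1, ht2⟩ := hex i i' hi h0.1 h0.2
        refine ⟨t, 0, 1, by decide, fun f => ?_⟩
        have huniv : (univ : Finset (Fin 4)) = {0, t.succ, i, i'} := by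
          have : ∀ (t : Fin 3) (i i' : Fin 4), i ≠ i' → i ≠ 0 → i' ≠ 0 → t.succ ≠ i →
            t.succ ≠ i' → (univ : Finset (Fin 4)) = {0, t.succ, i, i'} := by decide
          exact this t i i' hi h0.1 h0.2 ht1 ht2
        rw [huniv, Finset.sum_insert (by
          simp only [Finset.mem_insert, Finset.mem_singleton, not_or]
          exact ⟨(Fin.succ_ne_zero t).symm, h0.1.symm, h0.2.symm⟩), Finset.sum_insert (by
          simp only [Finset.mem_insert, Finset.mem_singleton, not_or]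
          exact ⟨ht1, ht2⟩), Finset.sum_pair hi]
        ring
    rcases hcase with ⟨t, ⟨rfl, rfl⟩ | ⟨rfl, rfl⟩⟩ | ⟨t, j, j', hj, hf⟩
    · exact fG1 t k k' hk
    · rw [add_comm (e1 t.succ)]; exact fG1 t k k' hk
    · -- the complement
      have hex : ∀ k k' : Fin 4, k ≠ k' → ∃ l l' : Fin 4, l ≠ l' ∧
          (univ : Finset (Fin 4)) = {l, l', k, k'} ∧ l ≠ k ∧ l ≠ k' ∧ l' ≠ k ∧ l' ≠ k' := by
        decide
      obtain ⟨l, l', hl, hu, n1, n2, n3, n4⟩ := hex k k' hk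
      have hy : e2 k + e2 k' = ∑ l, e2 l - (e2 l + e2 l') := by
        rw [hu, Finset.sum_insert (by
          simp only [Finset.mem_insert, Finset.mem_singleton, not_or]
          exact ⟨hl, n1, n2⟩), Finset.sum_insert (by
          simp only [Finset.mem_insert, Finset.mem_singleton, not_or]
          exact ⟨n3, n4⟩), Finset.sum_pair hk]
        ring
      have := (fG1 t l l' hl).neg
      refine this.congr ?_
      obtain ⟨n, hn⟩ := hrel
      rw [hf e1, hy]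
      exact ⟨-(c * n), by linear_combination -c * hn⟩
  have hp := point7M hD0 hc hd0 hd1 hM (f0 0) (f0 1) (hF (Sum.inr (Sum.inl ())))
    (fun i k => fF i k 0) (fun i k => fF i k 1) fG hgood
  rw [Psi_smul] at hp
  change Psi (fun z => Q D (c * z)) e1 e2 (e3 0) (e3 2) ≤ _ at hp
  rw [psi7_eq (S := fun z => Q D (c * z)) (N := (D : ℤ)) (fun z => by
      rw [mul_neg, Q_neg hD0]) (by rw [mul_zero]; exact Q_zero (dvd_zero _)) (fun z z' h => by
      apply Q_congr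
      rw [← mul_sub]
      exact h.mul_left c) hrel] at hp
  linarith

end Run7.h850.PE
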