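import Pool.Agent.Run7.h850.PE.Six

set_option autoImplicit false

/-!
Systems of rank three on the thrice punctured line.
-/

open Finset

namespace Run7.h850.PE

open Polynomial Pool.Agent.TH571.PCV Run7.h850.PC Pool.Agent.W280.PC Pool.Agent.W432.PC

universe u

/-- There are at least `ε * φ(N)` residue classes modulo `N`, prime to `N`, such that the `p`-curvature
is nonzero at every closed point of `Spec R` whose residue characteristic is a large prime in one of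
these classes. -/
def NonzeroClasses {R : Type u} [CommRing R] {n r : ℕ} (α : Fin n → R)
    (A : Fin n → Matrix (Fin r) (Fin r) R) (N : ℕ) (ε : ℝ) : Prop :=
  ∃ (S : Finset (ZMod N)ˣ) (P₀ : ℕ), ε * N.totient ≤ S.card ∧
    ∀ p : ℕ, p.Prime → P₀ < p → (∃ v ∈ S, ((p : ℕ) : ZMod N) = ((v : (ZMod N)ˣ) : ZMod N)) →
      ∀ (𝔪 : Ideal R) [𝔪.IsMaximal], (p : R) ∈ 𝔪 → ¬ PCurvZeroAt α A 𝔪

section

variable {R : Type u} [CommRing R] [IsDomain R] {n r : ℕ}

omit [IsDomain R] in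
/-- Collecting the classes. -/
lemma collect (α : Fin n → R) (A : Fin n → Matrix (Fin r) (Fin r) R) (N : ℕ) (hN : 0 < N)
    (ε : ℝ) (S : Finset (ZMod N)ˣ) (hS : ε * N.totient ≤ S.card)
    (h : ∀ u ∈ S, ∃ a : ℤ, ((a : ℤ) : ZMod N) = ((u : (ZMod N)ˣ) : ZMod N) ∧
      ∃ P₀ : ℕ, ∀ p : ℕ, p.Prime → P₀ < p → (N : ℤ) ∣ a * p + 1 →
        ∀ (𝔪 : Ideal R) [𝔪.IsMaximal], (p : R) ∈ 𝔪 → ¬ PCurvZeroAt α A 𝔪) :
    NonzeroClasses α A N ε := by
  classical
  have : NeZero N := ⟨hN.ne'⟩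
  choose! a ha P hP using h
  refine ⟨S.image (fun u => -u⁻¹), S.sup P, ?_, ?_⟩
  · rw [Finset.card_image_of_injective]
    · exact hS
    · intro u v huv
      have h1 : -u⁻¹ = -v⁻¹ := huv
      exact inv_injective (neg_injective h1)
  · rintro p hp hpP ⟨v, hv, hpv⟩ 𝔪 h𝔪 hpm
    obtain ⟨u, hu, rfl⟩ := Finset.mem_image.mp hv
    refine hP u hu p hp (lt_of_le_of_lt (Finset.le_sup hu) hpP) ?_ 𝔪 hpm
    rw [← ZMod.intCast_zmod_eq_zero_iff_dvd]
    push_cast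
    rw [ha u hu, hpv, Units.val_neg, mul_neg, Units.mul_inv, neg_add_cancel]

variable [CharZero R]

lemma NonzeroClasses.not_condII [Algebra.FiniteType ℤ R] {α : Fin n → R}
    {A : Fin n → Matrix (Fin r) (Fin r) R} {N : ℕ} (hN : 0 < N) {ε : ℝ} (hε : 0 < ε)
    (h : NonzeroClasses α A N ε) : ¬ CondII α A := by
  obtain ⟨S, P₀, hS, hP⟩ := h
  have hφ : (0 : ℝ) < N.totient := by exact_mod_cast Nat.totient_pos.2 hN
  have h1 : (0 : ℝ) < S.card := (mul_pos hε hφ).trans_le hS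
  have h2 : 0 < S.card := by exact_mod_cast h1
  obtain ⟨v, hv⟩ := card_pos.1 h2
  have : NeZero N := ⟨hN.ne'⟩
  set a : ℤ := (((-v⁻¹ : (ZMod N)ˣ) : ZMod N).val : ℤ) with ha
  have hcop : IsCoprime a (N : ℤ) := by
    rw [ha, Nat.isCoprime_iff_coprime]
    exact ZMod.val_coe_unit_coprime _
  have hau : ((a : ℤ) : ZMod N) = ((-v⁻¹ : (ZMod N)ˣ) : ZMod N) := by
    rw [ha, Int.cast_natCast, ZMod.natCast_zmod_val]
  refine not_condII_of α A N hN a hcop ⟨1, one_ne_zero, P₀, fun p hp hpP hap 𝔪 _ hpm _ =>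
    hP p hp hpP ⟨v, hv, ?_⟩ 𝔪 hpm⟩
  rw [← ZMod.intCast_zmod_eq_zero_iff_dvd] at hap
  push_cast at hap
  rw [hau] at hap
  have h3 : ((v : (ZMod N)ˣ) : ZMod N) * ((v⁻¹ : (ZMod N)ˣ) : ZMod N) = 1 := by
    rw [← Units.val_mul]
    simp
  rw [Units.val_neg] at hap
  linear_combination (-(v : ZMod N)) * hap + (-(p : ZMod N)) * h3

end

section

variable {R : Type u} [CommRing R] [IsDomain R] [CharZero R]

omit [IsDomain R] [CharZero R] in
lemma unit01 : ∀ i j : Fin 2, i ≠ j → IsUnit ((![0, 1] : Fin 2 → R) i - ![0, 1] j) := by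
  intro i j hij
  fin_cases i <;> fin_cases j
  · exact absurd rfl hij
  · simp
  · simp
  · exact absurd rfl hij

lemma den_ne_one {N : ℕ} (hN : 0 < N) {q : ℚ} {z : ℤ} (hq : (N : ℚ) * q = z) (h : q.den ≠ 1) :
    ¬ (N : ℤ) ∣ z := by
  rintro ⟨k, hk⟩
  apply h
  have hNq : (N : ℚ) ≠ 0 := by exact_mod_cast hN.ne'
  have h1 : q = k := by
    have h2 : (N : ℚ) * q = N * k := by
      rw [hq, hk]
      push_cast
      rfl
    exact mul_left_cancel₀ hNq h2
  rw [h1]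
  exact Rat.den_intCast k

theorem sys3_bad (b c : Matrix (Fin 3) (Fin 3) R) (lam : Fin 3 → Fin 3 → ℚ)
    (h0 : HasExponents b (lam 0)) (h1 : HasExponents c (lam 1))
    (h2 : HasExponents (b + c) (fun l => -lam 2 l))
    (hθ : ∀ x l l', l ≠ l' → (lam x l - lam x l').den ≠ 1)
    (hs : ∀ i j k, (lam 0 i + lam 1 j + lam 2 k).den ≠ 1) {N : ℕ} (hN : 0 < N)
    (hlam : ∀ x l, ∃ m : ℤ, (N : ℚ) * lam x l = m) :
    NonzeroClasses ![0, 1] ![b, c] N (15 / 1231 * (26 / 105 - ((exc3 lam : ℚ) : ℝ))) := by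
  classical
  have : NeZero N := ⟨hN.ne'⟩
  choose e he using hlam
  have hNq : (N : ℚ) ≠ 0 := by exact_mod_cast hN.ne'
  have hl : ∀ x l, (e x l : ℚ) / N = lam x l := by
    intro x l
    rw [← he x l]
    field_simp
  have hsumq : ∀ i j k, (N : ℚ) * (lam 0 i + lam 1 j + lam 2 k) = (e 0 i + e 1 j + e 2 k : ℤ) := by
    intro i j k
    push_cast
    rw [← he, ← he, ← he]
    ring
  have hN1 : 1 < N := by
    by_contra h
    have h3 : N = 1 := by omega
    refine den_ne_one hN (hsumq 0 0 0) (hs 0 0 0) ?_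
    rw [h3]
    simp
  have hz : ∀ i, ¬ (N : ℤ) ∣ z36 e i := by
    rintro (⟨x, q⟩ | ⟨i, j, k⟩)
    · simp only [z36, Sum.elim_inl]
      refine den_ne_one hN (q := lam x (q + 1) - lam x q) ?_ (hθ x _ _ ?_)
      · push_cast
        rw [← he, ← he]
        ring
      · revert q
        decide
    · simp only [z36, Sum.elim_inr]
      exact den_ne_one hN (hsumq i j k) (hs i j k)
  have he0 : ∀ j : Fin 2, HasExponents ((![b, c] : Fin 2 → Matrix (Fin 3) (Fin 3) R) j)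
      (fun l => ((![e 0, e 1] : Fin 2 → Fin 3 → ℤ) j l : ℚ) / N) := by
    intro j
    fin_cases j
    · simpa [hl] using h0
    · simpa [hl] using h1
  have he2 : HasExponents (∑ j, (![b, c] : Fin 2 → Matrix (Fin 3) (Fin 3) R) j)
      (fun l => (((fun l => -e 2 l) l : ℤ) : ℚ) / N) := by
    have h3 : (fun l => (((fun l => -e 2 l) l : ℤ) : ℚ) / N) = fun l => -lam 2 l := by
      funext l
      push_cast
      rw [neg_div, hl]
    rw [h3, Fin.sum_univ_two]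
    exact h2
  have htr := trace_rel (![b, c] : Fin 2 → Matrix (Fin 3) (Fin 3) R) N hN1 ![e 0, e 1]
    (fun l => -e 2 l) he0 he2
  have hsum : ∑ x, ∑ l, e x l = 0 := by
    rw [Fin.sum_univ_two, sum_neg_distrib] at htr
    rw [Fin.sum_univ_three]
    simp only [Matrix.cons_val_zero, Matrix.cons_val_one] at htr
    linarith
  refine collect _ _ N hN _ _ (count_bad he hsum hz) fun u hu =>
    ⟨(((u : ZMod N).val : ℕ) : ℤ), by push_cast; rw [ZMod.natCast_zmod_val], ?_⟩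
  by_contra hno
  refine (mem_filter.1 hu).2 ?_
  have hcop : IsCoprime (((u : ZMod N).val : ℕ) : ℤ) (N : ℤ) :=
    Nat.isCoprime_iff_coprime.2 (ZMod.val_coe_unit_coprime u)
  obtain ⟨σ, τ, m1, m2, hI⟩ := ineq_of_not ![0, 1] unit01 ![b, c]
      (fun j l => ((![e 0, e 1] : Fin 2 → Fin 3 → ℤ) j l : ℚ) / N)
      (fun l => (((fun l => -e 2 l) l : ℤ) : ℚ) / N) he0 he2 N hN1 ![e 0, e 1] (fun l => -e 2 l)
      (fun j l => by field_simp) (fun l => by field_simp) _ hcop (fun κ s => by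
        rw [Fin.sum_univ_two]
        simp only [Matrix.cons_val_zero, Matrix.cons_val_one, sub_neg_eq_add]
        exact den_ne_one hN (hsumq _ _ _) (hs (κ 0) (κ 1) s)) hno
  refine ⟨σ 0, σ 1, τ, m1 0, m1 1, m2, ?_⟩
  intro m q i j s hm hq
  have := hI m q ![i, j] s (by rw [Fin.sum_univ_two]; exact hm)
    (by rw [Fin.sum_univ_two]; exact hq)
  rw [Fin.sum_univ_two] at this
  exact this

end

/-! ### Cases where the excess is small -/

lemma exc3_le {lam : Fin 3 → Fin 3 → ℚ} {A B : ℚ}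
    (hs : ∀ i j k, gam (lam 0 i + lam 1 j + lam 2 k) ≤ A)
    (hθ : ∀ x q, -gam (lam x (q + 1) - lam x q) ≤ B) : exc3 lam ≤ 27 * A + 27 * B := by
  have h1 : ∑ i : Fin 3, ∑ j : Fin 3, ∑ k : Fin 3, gam (lam 0 i + lam 1 j + lam 2 k) ≤
      ∑ _i : Fin 3, ∑ _j : Fin 3, ∑ _k : Fin 3, A :=
    sum_le_sum fun i _ => sum_le_sum fun j _ => sum_le_sum fun k _ => hs i j k
  have h2 : ∑ x : Fin 3, ∑ q : Fin 3, -gam (lam x (q + 1) - lam x q) ≤
      ∑ _x : Fin 3, ∑ _q : Fin 3, B := sum_le_sum fun x _ => sum_le_sum fun q _ => hθ x q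
  simp only [sum_neg_distrib] at h2
  simp only [sum_const, card_univ, Fintype.card_fin, nsmul_eq_mul] at h1 h2
  push_cast at h1 h2
  unfold exc3
  linarith

/-- All denominators are at least `219`. -/
lemma exc3_large {lam : Fin 3 → Fin 3 → ℚ}
    (hs : ∀ i j k, 219 ≤ (lam 0 i + lam 1 j + lam 2 k).den)
    (hθ : ∀ x l l', l ≠ l' → 219 ≤ (lam x l - lam x l').den) : exc3 lam < 26 / 105 := by
  have h1 := exc3_le (lam := lam) (A := 1 / 219) (B := 1 / 219)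
    (fun i j k => (le_abs_self _).trans (by exact_mod_cast gam_le (by norm_num) (hs i j k)))
    (fun x q => (neg_le_abs _).trans (by
      exact_mod_cast gam_le (by norm_num) (hθ x (q + 1) q (by revert q; decide))))
  norm_num at h1
  linarith

/-- The denominator has no prime factors below `11`. -/
def Rough11 (q : ℚ) : Prop := ∀ p : ℕ, p.Prime → p ∣ q.den → 11 ≤ p

lemma Rough11.not {q : ℚ} (h : Rough11 q) :
    ¬ 2 ∣ q.den ∧ ¬ 3 ∣ q.den ∧ ¬ 5 ∣ q.den ∧ ¬ 7 ∣ q.den := by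
  refine ⟨fun h2 => ?_, fun h2 => ?_, fun h2 => ?_, fun h2 => ?_⟩
  · have := h 2 Nat.prime_two h2
    omega
  · have := h 3 Nat.prime_three h2
    omega
  · have := h 5 Nat.prime_five h2
    omega
  · have := h 7 (by norm_num) h2
    omega

lemma chk11a : ∀ d ∈ List.range 143, (d ≠ 0 ∧ d ≠ 1 ∧ ¬ 2 ∣ d ∧ ¬ 3 ∣ d ∧ ¬ 5 ∣ d ∧ ¬ 7 ∣ d) →
    ∏ p ∈ d.primeFactors, (-(p : ℤ)) ≤ 0 := by
  decide +kernel

lemma chk11b : ∀ d ∈ List.range 461, (d ≠ 0 ∧ d ≠ 1 ∧ ¬ 2 ∣ d ∧ ¬ 3 ∣ d ∧ ¬ 5 ∣ d ∧ ¬ 7 ∣ d ∧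
    ¬ d.minFac = d) → -461 * ∏ p ∈ d.primeFactors, (-(p : ℤ)) ≤ (d : ℤ) ^ 2 := by
  decide +kernel

lemma gam_rough11 {q : ℚ} (h : Rough11 q) (h1 : q.den ≠ 1) : gam q ≤ 1 / 143 := by
  rcases Nat.lt_or_ge q.den 143 with hlt | hge
  · obtain ⟨h2, h3, h5, h6⟩ := h.not
    have h7 := chk11a q.den (List.mem_range.2 hlt) ⟨q.den_pos.ne', h1, h2, h3, h5, h6⟩
    have h8 : ∏ p ∈ q.den.primeFactors, (-(p : ℚ)) ≤ 0 := by exact_mod_cast h7
    unfold gam
    refine (div_nonpos_of_nonpos_of_nonneg h8 (by positivity)).trans (by norm_num)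
  · exact (le_abs_self _).trans (by exact_mod_cast gam_le (M := 143) (by norm_num) hge)

lemma gam_rough11' {q : ℚ} (h : Rough11 q) (h1 : q.den ≠ 1) (hp : q.den.Prime → 461 ≤ q.den) :
    -gam q ≤ 1 / 461 := by
  rcases Nat.lt_or_ge q.den 461 with hlt | hge
  · obtain ⟨h2, h3, h5, h6⟩ := h.not
    have h7 := chk11b q.den (List.mem_range.2 hlt) ⟨q.den_pos.ne', h1, h2, h3, h5, h6, fun h8 => by
      have h9 : q.den.Prime := by
        rw [← h8]
        exact Nat.minFac_prime h1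
      have := hp h9
      omega⟩
    have h8 : -461 * ∏ p ∈ q.den.primeFactors, (-(p : ℚ)) ≤ (q.den : ℚ) ^ 2 := by exact_mod_cast h7
    have hd : (0 : ℚ) < (q.den : ℚ) ^ 2 := by
      have : (0 : ℚ) < q.den := by exact_mod_cast q.den_pos
      positivity
    unfold gam
    rw [← neg_div, div_le_div_iff₀ hd (by norm_num)]
    linarith
  · exact (neg_le_abs _).trans (by exact_mod_cast gam_le (M := 461) (by norm_num) hge)

lemma exc3_rough {lam : Fin 3 → Fin 3 → ℚ} (hs1 : ∀ i j k, (lam 0 i + lam 1 j + lam 2 k).den ≠ 1)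
    (hθ1 : ∀ x l l', l ≠ l' → (lam x l - lam x l').den ≠ 1)
    (hs : ∀ i j k, Rough11 (lam 0 i + lam 1 j + lam 2 k))
    (hθ : ∀ x l l', Rough11 (lam x l - lam x l'))
    (hθp : ∀ x l l', (lam x l - lam x l').den.Prime → 461 ≤ (lam x l - lam x l').den) :
    exc3 lam < 26 / 105 := by
  have h1 := exc3_le (lam := lam) (A := 1 / 143) (B := 1 / 461)
    (fun i j k => gam_rough11 (hs i j k) (hs1 i j k))
    (fun x q => gam_rough11' (hθ x _ _) (hθ1 x _ _ (by revert q; decide)) (hθp x _ _))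
  norm_num at h1
  linarith

end Run7.h850.PE
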