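import Pool.Agent.Run7.h850.PE.Seven
import Pool.Agent.Run7.h850.PE.Sys
import Pool.Agent.Run7.h850.PE.Def4

set_option autoImplicit false

/-!
Systems of rank four with three points: the average.
-/

open Finset

namespace Run7.h850.PE

open Pool.Agent.TH571.PCV Run7.h850.PC Pool.Agent.W280.PC Pool.Agent.W280.PE Pool.Agent.W432.PC
open Pool.Agent.TH295.PC (Far I7 z7 w7 pa pb pab pab_surj point7M psi7_eq sum_w7)

universe u

lemma pr1_eq : pr1 = pa := rfl

lemma pr2_eq : pr2 = pb := rfl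

lemma sum_w63 {N : ℕ} (hN : 0 < N) {x y z : Fin 4 → ℚ} {e1 e2 e3 : Fin 4 → ℤ}
    (h1 : ∀ l, (N : ℚ) * x l = e1 l) (h2 : ∀ l, (N : ℚ) * y l = e2 l)
    (h3 : ∀ l, (N : ℚ) * z l = e3 l) :
    ∑ i, (w7 i : ℝ) * (1 - ((gam ((z7 e1 e2 (e3 0) (e3 2) i : ℚ) / N) : ℚ) : ℝ)) =
      ((exc63 x y z : ℚ) : ℝ) := by
  have hNq : (N : ℚ) ≠ 0 := by exact_mod_cast hN.ne'
  have hx : ∀ l, (e1 l : ℚ) / N = x l := fun l => by rw [← h1]; field_simp
  have hy : ∀ l, (e2 l : ℚ) / N = y l := fun l => by rw [← h2]; field_simp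
  have hz : ∀ l, (e3 l : ℚ) / N = z l := fun l => by rw [← h3]; field_simp
  have key : ∑ i, (w7 i : ℚ) * (1 - gam ((z7 e1 e2 (e3 0) (e3 2) i : ℚ) / N)) =
      exc63 x y z := by
    rw [Fintype.sum_sum_type, Fintype.sum_sum_type, Fintype.sum_sum_type]
    simp only [Fintype.sum_prod_type, w7, z7, Sum.elim_inl, Sum.elim_inr, Finset.univ_unique,
      Finset.sum_singleton]
    rw [Fin.sum_univ_two (f := fun i : Fin 2 => ∑ q : Fin 6, _)]
    simp only [Fin.sum_univ_two (M := ℚ), Matrix.cons_val_zero, Matrix.cons_val_one]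
    have g1 : ∀ q : Fin 6, ((e1 (pb q) - e1 (pa q) : ℤ) : ℚ) / N = x (pb q) - x (pa q) := by
      intro q; push_cast; rw [sub_div, hx, hx]
    have g2 : ∀ q : Fin 6, ((e2 (pb q) - e2 (pa q) : ℤ) : ℚ) / N = y (pb q) - y (pa q) := by
      intro q; push_cast; rw [sub_div, hy, hy]
    have g3 : ((e3 2 - e3 0 : ℤ) : ℚ) / N = z 2 - z 0 := by
      push_cast; rw [sub_div, hz, hz]
    have g4 : ∀ i k, ((e1 i + e2 k + e3 0 : ℤ) : ℚ) / N = x i + y k + z 0 := by
      intro i k; push_cast; rw [add_div, add_div, hx, hy, hz]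
    have g5 : ∀ i k, ((e1 i + e2 k + e3 2 : ℤ) : ℚ) / N = x i + y k + z 2 := by
      intro i k; push_cast; rw [add_div, add_div, hx, hy, hz]
    have g6 : ∀ (t : Fin 3) (q : Fin 6),
        (((e1 0 + e1 t.succ) + (e2 (pa q) + e2 (pb q)) + (e3 0 + e3 2) : ℤ) : ℚ) / N =
        (x 0 + x t.succ) + (y (pa q) + y (pb q)) + (z 0 + z 2) := by
      intro t q; push_cast
      rw [add_div, add_div, add_div, add_div, add_div, hx, hx, hy, hy, hz, hz]
    simp only [g1, g2, g3, g4, g5, g6]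
    unfold exc63
    rw [pr1_eq, pr2_eq]
    simp only [← mul_sum, sum_sub_distrib, sum_add_distrib, sum_const, card_univ,
      Fintype.card_fin, nsmul_eq_mul]
    push_cast
    ring
  rw [← key]
  push_cast
  rfl

section

variable {N : ℕ} [NeZero N]

open Classical in
/-- The average: the number of the units without the property. -/
theorem count63 {x y z : Fin 4 → ℚ} {e1 e2 e3 : Fin 4 → ℤ}
    (h1 : ∀ l, (N : ℚ) * x l = e1 l) (h2 : ∀ l, (N : ℚ) * y l = e2 l)
    (h3 : ∀ l, (N : ℚ) * z l = e3 l) (hsum : ∑ l, e1 l + ∑ l, e2 l + ∑ l, e3 l = 0)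
    (hd0 : (N : ℤ) ∣ e3 0 - e3 1) (hd1 : (N : ℤ) ∣ e3 2 - e3 3)
    (hz : ∀ i, ¬ (N : ℤ) ∣ z7 e1 e2 (e3 0) (e3 2) i) (P : (ZMod N)ˣ → Prop)
    (hP : ∀ u : (ZMod N)ˣ, ¬ P u → ¬ P (-u) →
      ∃ X Y C, Good N e1 e2 e3 (((u : ZMod N).val : ℕ) : ℤ) X Y C) :
    85 / 25764 * (253 / 340 - ((exc63 x y z : ℚ) : ℝ)) * N.totient ≤ (univ.filter P).card := by
  have hN : 0 < N := Nat.pos_of_ne_zero (NeZero.ne N)
  set S := univ.filter P with hS
  set B := S ∪ S.image (fun u => -u) with hB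
  have hBc : (B.card : ℝ) ≤ 2 * S.card := by
    have h3 : B.card ≤ 2 * S.card := by
      calc B.card ≤ S.card + (S.image (fun u => -u)).card := card_union_le _ _
        _ ≤ S.card + S.card := Nat.add_le_add_left card_image_le _
        _ = 2 * S.card := by ring
    exact_mod_cast h3
  have hq := average_gen (N := N) (z7 e1 e2 (e3 0) (e3 2)) w7 (K := 255) (τ := 5 / 154224)
    (C := 66) (L := 25) (by norm_num) R.US_255 hz B
    (by
      intro u
      have hb : ∀ i : I7, ((w7 i : ℤ) : ℝ) *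
          qf ((((u : ZMod N).val : ℕ) : ℝ) * ((z7 e1 e2 (e3 0) (e3 2) i : ℝ) / N)) ≥
          (min (w7 i : ℤ) 0 : ℤ) / 4 := by
        intro i
        have a1 := qf_nonneg ((((u : ZMod N).val : ℕ) : ℝ) *
          ((z7 e1 e2 (e3 0) (e3 2) i : ℝ) / N))
        have a2 := qf_le ((((u : ZMod N).val : ℕ) : ℝ) * ((z7 e1 e2 (e3 0) (e3 2) i : ℝ) / N))
        rcases le_or_gt 0 (w7 i) with h | h
        · rw [min_eq_right h]
          have : (0 : ℝ) ≤ (w7 i : ℝ) := by exact_mod_cast h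
          have := mul_nonneg this a1
          push_cast
          linarith
        · rw [min_eq_left h.le]
          have : (w7 i : ℝ) < 0 := by exact_mod_cast h
          nlinarith
      have hc : ∑ i, (((min (w7 i : ℤ) 0 : ℤ) : ℝ) / 4) = -25 := by
        rw [← sum_div]
        have : ∑ i, min (w7 i : ℤ) 0 = -100 := by
          simp [w7, Fintype.sum_sum_type]
        have h4 : ∑ i, ((min (w7 i : ℤ) 0 : ℤ) : ℝ) = -100 := by exact_mod_cast this
        rw [h4]
        norm_num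
      rw [← hc]
      exact sum_le_sum fun i _ => hb i)
    (by
      intro u hu M hM hF
      rw [hB, mem_union, not_or] at hu
      obtain ⟨hu1, hu2⟩ := hu
      have h5 : ¬ P u := fun h => hu1 (by rw [hS, mem_filter]; exact ⟨mem_univ _, h⟩)
      have h6 : ¬ P (-u) := by
        intro h
        apply hu2
        rw [mem_image]
        refine ⟨-u, ?_, neg_neg u⟩
        rw [hS, mem_filter]
        exact ⟨mem_univ _, h⟩
      have hcop : IsCoprime (((u : ZMod N).val : ℕ) : ℤ) (N : ℤ) :=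
        Nat.isCoprime_iff_coprime.2 (ZMod.val_coe_unit_coprime u)
      have h7 := point63 hN hd0 hd1 hsum hcop (hP u h5 h6) hM hF
      have h8 : ((∑ i, w7 i * Q N ((((u : ZMod N).val : ℕ) : ℤ) *
          z7 e1 e2 (e3 0) (e3 2) i) : ℤ) : ℝ) ≤ ((-(66 * M * N) : ℤ) : ℝ) := by exact_mod_cast h7
      push_cast at h8
      push_cast
      exact h8)
  rw [sum_w63 hN h1 h2 h3] at hq
  have h6 : (Fintype.card I7 : ℝ) = 63 := by
    simp only [I7, Fintype.card_sum, Fintype.card_prod, Fintype.card_fin, Fintype.card_unit]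
    norm_num
  rw [h6] at hq
  norm_num at hq
  have h7 : (253 / 2040 - ((exc63 x y z : ℚ) : ℝ) / 6) * N.totient ≤
      2147 / 85 * (2 * S.card) := by
    refine le_trans ?_ (hq.trans (mul_le_mul_of_nonneg_left hBc (by norm_num)))
    exact le_rfl
  linarith

end

end Run7.h850.PE
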