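import Pool.Agent.Run7.h850.PE.Smooth

set_option autoImplicit false

/-!
The mean of the tent function with half-width `1 / 135`.
-/

open Finset

namespace Run7.h850.PE

open Run7.h850.PC

/-- The smooth numbers that can be used. -/
def L135 : List (ℕ × ℕ) :=
  [(91, 91), (95, 95), (115, 115), (119, 119), (121, 121), (123, 123), (125, 125), (129, 129),
   (133, 133), (141, 141), (143, 143), (145, 145), (148, 74), (152, 76), (153, 153), (155, 155),
   (159, 159), (161, 161), (164, 82), (169, 169), (171, 171), (172, 86), (175, 175), (176, 88),
   (177, 177), (183, 183), (184, 92), (185, 185), (187, 187), (188, 94), (189, 189), (196, 98),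
   (200, 100), (201, 201), (203, 203), (205, 205), (207, 207), (208, 104), (209, 209),
   (212, 106), (215, 215), (217, 217), (220, 110), (221, 221), (224, 112), (232, 116),
   (235, 235), (236, 118), (243, 81), (244, 122), (245, 245), (247, 247), (248, 124), (253, 253),
   (256, 128), (259, 259), (260, 130), (261, 87), (265, 265), (268, 134), (272, 136), (275, 275),
   (279, 93), (280, 140), (287, 287), (288, 144), (289, 289), (295, 295), (297, 99), (299, 299),
   (301, 301), (305, 305), (308, 154), (312, 156), (319, 319), (320, 160), (323, 323),
   (324, 162), (325, 325), (329, 329), (333, 111), (335, 335), (340, 170), (341, 341),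
   (343, 343), (351, 117), (361, 361), (371, 371), (377, 377), (385, 385), (391, 391),
   (396, 198), (403, 403), (405, 135), (407, 407), (413, 413), (425, 85), (427, 427), (437, 437),
   (441, 147), (451, 451), (469, 469), (473, 473), (481, 481), (493, 493), (495, 165), (504, 84),
   (517, 517), (527, 527), (529, 529), (533, 533), (539, 77), (540, 90), (551, 551), (559, 559),
   (583, 583), (585, 195), (589, 589), (611, 611), (629, 629), (649, 649), (667, 667),
   (671, 671), (675, 135), (689, 689), (693, 231), (697, 697), (703, 703), (713, 713),
   (720, 120), (731, 731), (737, 737), (767, 767), (779, 779), (793, 793), (799, 799),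
   (817, 817), (841, 841), (851, 851), (871, 871), (893, 893), (899, 899), (900, 150),
   (901, 901), (943, 943), (961, 961), (989, 989), (1003, 1003), (1007, 1007), (1037, 1037),
   (1073, 1073), (1081, 1081), (1121, 1121), (1139, 1139), (1147, 1147), (1159, 1159),
   (1189, 1189), (1219, 1219), (1247, 1247), (1260, 210), (1271, 1271), (1273, 1273),
   (1333, 1333), (1357, 1357), (1363, 1363), (1369, 1369), (1403, 1403), (1457, 1457),
   (1517, 1517), (1537, 1537), (1541, 1541), (1591, 1591), (1643, 1643), (1681, 1681),
   (1711, 1711), (1739, 1739), (1763, 1763), (1769, 1769), (1829, 1829), (1849, 1849),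
   (1891, 1891), (1927, 1927), (1943, 1943), (1961, 1961), (2021, 2021), (2077, 2077),
   (2173, 2173), (2183, 2183), (2209, 2209), (2257, 2257), (2279, 2279), (2419, 2419),
   (2479, 2479), (2491, 2491), (2501, 2501), (2537, 2537), (2623, 2623), (2747, 2747),
   (2773, 2773), (2809, 2809), (2867, 2867), (2881, 2881), (3127, 3127), (3149, 3149),
   (3233, 3233), (3481, 3481), (3551, 3551), (3599, 3599), (3721, 3721), (3953, 3953),
   (4087, 4087), (4489, 4489)]

lemma L135_all : (L135.all fun q => goodB 135 28 225 q) = true := by decide +kernel

lemma row135_2 : rowB 630 L135 2 (below 2) = true := by decide +kernel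

lemma row135_3 : rowB 630 L135 3 (below 3) = true := by decide +kernel

lemma row135_5 : rowB 630 L135 5 (below 5) = true := by decide +kernel

lemma row135_7 : rowB 630 L135 7 (below 7) = true := by decide +kernel

lemma row135_11 : rowB 630 L135 11 (below 11) = true := by decide +kernel

lemma row135_13 : rowB 630 L135 13 (below 13) = true := by decide +kernel

lemma row135_17 : rowB 630 L135 17 (below 17) = true := by decide +kernel

lemma row135_19 : rowB 630 L135 19 (below 19) = true := by decide +kernel

lemma row135_23 : rowB 630 L135 23 (below 23) = true := by decide +kernel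

lemma row135_29 : rowB 630 L135 29 (below 29) = true := by decide +kernel

lemma row135_31 : rowB 630 L135 31 (below 31) = true := by decide +kernel

lemma row135_37 : rowB 630 L135 37 (below 37) = true := by decide +kernel

lemma row135_41 : rowB 630 L135 41 (below 41) = true := by decide +kernel

lemma row135_43 : rowB 630 L135 43 (below 43) = true := by decide +kernel

lemma row135_47 : rowB 630 L135 47 (below 47) = true := by decide +kernel

lemma row135_53 : rowB 630 L135 53 (below 53) = true := by decide +kernel

lemma row135_59 : rowB 630 L135 59 (below 59) = true := by decide +kernel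

lemma row135_61 : rowB 630 L135 61 (below 61) = true := by decide +kernel

lemma row135_67 : rowB 630 L135 67 (below 67) = true := by decide +kernel

lemma row135 : ∀ p ∈ SP, rowB 630 L135 p (below p) = true := by
  intro p hp
  unfold SP at hp
  fin_cases hp
  · exact row135_2
  · exact row135_3
  · exact row135_5
  · exact row135_7
  · exact row135_11
  · exact row135_13
  · exact row135_17
  · exact row135_19
  · exact row135_23
  · exact row135_29
  · exact row135_31
  · exact row135_37
  · exact row135_41
  · exact row135_43
  · exact row135_47
  · exact row135_53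
  · exact row135_59
  · exact row135_61
  · exact row135_67

lemma good_prime135 {p : ℕ} (hp : p.Prime) (h : 71 ≤ p) : GoodG 135 28 225 p p := by
  refine ⟨hp.pos, dvd_rfl, ?_⟩
  rw [Nat.div_self hp.pos, Nat.totient_one, Nat.totient_prime hp]
  obtain ⟨k, rfl⟩ : ∃ k, p = k + 71 := ⟨p - 71, by omega⟩
  have : k + 71 - 1 = k + 70 := by omega
  rw [this]
  nlinarith

lemma small135_a : ((List.range 316).all fun n => smallB 135 28 225 (n + 2)) = true := by
  decide +kernel

lemma small135_b : ((List.range 316).all fun n => smallB 135 28 225 (n + 318)) = true := by
  decide +kernel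

/-- **The mean of the tent function.** -/
theorem US_135 (d : ℕ) (hd : 2 ≤ d) : US (1 / (135 : ℕ)) d ≤ 1 / 9072 * d.totient := by
  have h : 4 * ((135 : ℕ) : ℝ) ^ 2 * (28 : ℕ) * US (1 / (135 : ℕ)) d ≤ (225 : ℕ) * d.totient := by
    by_cases hp : ∃ p, p.Prime ∧ p ∣ d ∧ 71 ≤ p
    · obtain ⟨p, hp, hpd, h⟩ := hp
      exact US_of_goodG (by norm_num) (by omega) ((good_prime135 hp h).mul hp.pos (by omega) hpd)
    rcases Nat.lt_or_ge 630 d with h | h
    · push Not at hp
      obtain ⟨q, hq, hqd⟩ := exists_in_list (by norm_num) L135 row135 d h hp
      obtain ⟨h1, h2⟩ := good_of_goodB (List.all_eq_true.1 L135_all q hq)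
      exact US_of_goodG (by norm_num) (by omega) (h1.mul h2 (by omega) hqd)
    · refine US_of_small (by norm_num) (by omega) ?_
      have h3 : smallB 135 28 225 d = true := by
        rcases Nat.lt_or_ge d 318 with h4 | h4
        · have h1 := List.all_eq_true.1 small135_a (d - 2) (List.mem_range.2 (by omega))
          rwa [show d - 2 + 2 = d by omega] at h1
        · have h1 := List.all_eq_true.1 small135_b (d - 318) (List.mem_range.2 (by omega))
          rwa [show d - 318 + 318 = d by omega] at h1
      rcases small_of_smallB (by omega) (by omega) h3 with h4 | h4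
      · exact absurd h4 hp
      · exact h4
  push_cast at h
  push_cast
  linarith

end Run7.h850.PE
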