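import Pool.Agent.Run7.h850.PE.Gen
import Pool.Agent.Run7.h850.PE.Tau135
import Pool.Agent.Run7.h850.PC.Cor
import Pool.Agent.TH295.PC.Sys3
import Pool.Agent.W280.PC.Affine

set_option autoImplicit false

/-!
Systems of rank three with three points.
-/

open Finset

namespace Run7.h850.PE

open Pool.Agent.TH571.PCV Run7.h850.PC Pool.Agent.W280.PC Pool.Agent.W432.PC

/-- The nine differences and the twenty-seven sums. -/
abbrev I36 : Type := (Fin 3 × Fin 3) ⊕ (Fin 3 × Fin 3 × Fin 3)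

/-- The weights. -/
def w36 : I36 → ℤ := Sum.elim (fun _ => 3) (fun _ => -1)

/-- The sum of `gam` over the twenty-seven sums of exponents minus three times the sum over the
nine differences. -/
def exc3 (lam : Fin 3 → Fin 3 → ℚ) : ℚ :=
  ∑ i, ∑ j, ∑ k, gam (lam 0 i + lam 1 j + lam 2 k) - 3 * ∑ x, ∑ q, gam (lam x (q + 1) - lam x q)

/-- The thirty-six integers. -/
def z36 (e : Fin 3 → Fin 3 → ℤ) : I36 → ℤ :=
  Sum.elim (fun t => e t.1 (t.2 + 1) - e t.1 t.2) (fun t => e 0 t.1 + e 1 t.2.1 + e 2 t.2.2)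

lemma sum_w36 {N : ℕ} (hN : 0 < N) {lam : Fin 3 → Fin 3 → ℚ} {e : Fin 3 → Fin 3 → ℤ}
    (he : ∀ x l, (N : ℚ) * lam x l = e x l) :
    ∑ i, (w36 i : ℝ) * (1 - ((gam ((z36 e i : ℚ) / N) : ℚ) : ℝ)) = ((exc3 lam : ℚ) : ℝ) := by
  have hNq : (N : ℚ) ≠ 0 := by exact_mod_cast hN.ne'
  have h1 : ∑ i, (w36 i : ℚ) * (1 - gam ((z36 e i : ℚ) / N)) = exc3 lam := by
    have hl : ∀ x l, (e x l : ℚ) / N = lam x l := by
      intro x l
      rw [← he x l]
      field_simp
    rw [Fintype.sum_sum_type, Fintype.sum_prod_type, Fintype.sum_prod_type]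
    simp only [Fintype.sum_prod_type, w36, z36, Sum.elim_inl, Sum.elim_inr]
    have h2 : ∀ x q : Fin 3, ((e x (q + 1) - e x q : ℤ) : ℚ) / N = lam x (q + 1) - lam x q := by
      intro x q
      push_cast
      rw [sub_div, hl, hl]
    have h3 : ∀ i j k : Fin 3, ((e 0 i + e 1 j + e 2 k : ℤ) : ℚ) / N =
        lam 0 i + lam 1 j + lam 2 k := by
      intro i j k
      push_cast
      rw [add_div, add_div, hl, hl, hl]
    simp only [h2, h3]
    unfold exc3
    simp only [← mul_sum, sum_sub_distrib, sum_const, card_univ, Fintype.card_fin, nsmul_eq_mul]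
    push_cast
    ring
  rw [← h1]
  push_cast
  rfl

/-- The three rows in the form of the pointwise inequality. -/
lemma point36 {N : ℕ} (hN : 0 < N) {e : Fin 3 → Fin 3 → ℤ} (hsum : ∑ x, ∑ l, e x l = 0)
    {a : ℤ} (ha : IsCoprime a (N : ℤ)) (h : Uni3 N (e 0) (e 1) (fun l => -e 2 l) a)
    (h' : Uni3 N (e 0) (e 1) (fun l => -e 2 l) (-a)) {M : ℤ} (hM0 : 0 ≤ M)
    (hF : ∀ i, Pool.Agent.TH295.PC.Far N M (a * z36 e i)) :
    ∑ i, w36 i * Q N (a * z36 e i) ≤ -(12 * M * N) := by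
  have hs : ∑ l, e 0 l + ∑ l, e 1 l = ∑ l, -e 2 l := by
    rw [Fin.sum_univ_three] at hsum
    rw [sum_neg_distrib]
    linarith
  have f1 : ∀ q, Pool.Agent.TH295.PC.Far N M (a * Pool.Agent.TH295.PC.dif (e 0) q) :=
    fun q => hF (Sum.inl (0, q))
  have f2 : ∀ q, Pool.Agent.TH295.PC.Far N M (a * Pool.Agent.TH295.PC.dif (e 1) q) :=
    fun q => hF (Sum.inl (1, q))
  have f3 : ∀ q, Pool.Agent.TH295.PC.Far N M (a * Pool.Agent.TH295.PC.dif (fun l => -e 2 l) q) := by
    intro q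
    have h1 := (hF (Sum.inl (2, q))).neg
    simp only [z36, Sum.elim_inl] at h1
    unfold Pool.Agent.TH295.PC.dif
    rwa [show a * (-e 2 (q + 1) - -e 2 q) = -(a * (e 2 (q + 1) - e 2 q)) by ring]
  have f4 : ∀ i j k, Pool.Agent.TH295.PC.Far N M (a * (e 0 i + e 1 j - -e 2 k)) := by
    intro i j k
    have h1 := hF (Sum.inr (i, j, k))
    simp only [z36, Sum.elim_inr] at h1
    rwa [sub_neg_eq_add]
  have hp := Pool.Agent.TH295.PC.point3M hN hs ha h h' hM0 (Pool.Agent.TH295.PC.far_dif f1)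
    (Pool.Agent.TH295.PC.far_dif f2) (Pool.Agent.TH295.PC.far_dif f3) f4
  rw [Pool.Agent.TH295.PC.sum_dif hN, Pool.Agent.TH295.PC.sum_dif hN,
    Pool.Agent.TH295.PC.sum_dif hN] at hp
  have h3 : ∑ q, Q N (a * Pool.Agent.TH295.PC.dif (fun l => -e 2 l) q) =
      ∑ q : Fin 3, Q N (a * (e 2 (q + 1) - e 2 q)) := by
    refine sum_congr rfl fun q _ => ?_
    unfold Pool.Agent.TH295.PC.dif
    rw [show a * (-e 2 (q + 1) - -e 2 q) = -(a * (e 2 (q + 1) - e 2 q)) by ring, Q_neg hN]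
  rw [h3] at hp
  unfold Pool.Agent.TH295.PC.dif at hp
  simp only [sub_neg_eq_add] at hp
  rw [Fintype.sum_sum_type, Fintype.sum_prod_type, Fintype.sum_prod_type]
  simp only [Fintype.sum_prod_type, w36, z36, Sum.elim_inl, Sum.elim_inr]
  rw [Fin.sum_univ_three (f := fun x => ∑ y, 3 * Q N (a * (e x (y + 1) - e x y)))]
  simp only [← mul_sum]
  linarith

/-- `wI` depends on the residue class only. -/
lemma wI_congr {D : ℕ} {a b : ℤ} (h : (D : ℤ) ∣ a - b) (e : ℤ) : wI D a e = wI D b e := by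
  unfold wI
  split_ifs
  · rfl
  · apply Int.emod_eq_emod_iff_emod_sub_eq_zero.2
    apply Int.emod_eq_zero_of_dvd
    rw [← sub_mul]
    exact Dvd.dvd.mul_right h _

lemma Uni3.congr {D : ℕ} {e1 e2 e3 : Fin 3 → ℤ} {a b : ℤ} (h : (D : ℤ) ∣ a - b)
    (hu : Uni3 D e1 e2 e3 a) : Uni3 D e1 e2 e3 b := by
  unfold Uni3 at hu ⊢
  simpa only [wI_congr h] using hu

section

variable {N : ℕ} [NeZero N]

open Classical in
/-- The average: the number of the units without the property. -/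
theorem count_bad {lam : Fin 3 → Fin 3 → ℚ} {e : Fin 3 → Fin 3 → ℤ}
    (he : ∀ x l, (N : ℚ) * lam x l = e x l) (hsum : ∑ x, ∑ l, e x l = 0)
    (hz : ∀ i, ¬ (N : ℤ) ∣ z36 e i) :
    15 / 1231 * (26 / 105 - ((exc3 lam : ℚ) : ℝ)) * N.totient ≤
      (univ.filter fun u : (ZMod N)ˣ =>
        ¬ Uni3 N (e 0) (e 1) (fun l => -e 2 l) (((u : ZMod N).val : ℕ) : ℤ)).card := by
  have hN : 0 < N := Nat.pos_of_ne_zero (NeZero.ne N)
  set S := univ.filter fun u : (ZMod N)ˣ =>
        ¬ Uni3 N (e 0) (e 1) (fun l => -e 2 l) (((u : ZMod N).val : ℕ) : ℤ) with hS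
  set B := S ∪ S.image (fun u => -u) with hB
  have hBc : (B.card : ℝ) ≤ 2 * S.card := by
    have h3 : B.card ≤ 2 * S.card := by
      calc B.card ≤ S.card + (S.image (fun u => -u)).card := card_union_le _ _
        _ ≤ S.card + S.card := Nat.add_le_add_left card_image_le _
        _ = 2 * S.card := by ring
    exact_mod_cast h3
  have h1 := average_gen (N := N) (z36 e) w36 (K := 135) (τ := 1 / 9072) (C := 12) (L := 27 / 4)
    (by norm_num) US_135 hz B
    (by
      intro u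
      rw [Fintype.sum_sum_type]
      have h2 : 0 ≤ ∑ a₁ : Fin 3 × Fin 3, ((w36 (Sum.inl a₁) : ℤ) : ℝ) *
          qf ((((u : ZMod N).val : ℕ) : ℝ) * ((z36 e (Sum.inl a₁) : ℝ) / N)) := by
        refine sum_nonneg fun a _ => ?_
        simp only [w36, Sum.elim_inl]
        push_cast
        have := qf_nonneg ((((u : ZMod N).val : ℕ) : ℝ) * ((z36 e (Sum.inl a) : ℝ) / N))
        linarith
      have h3 : ∑ _a : Fin 3 × Fin 3 × Fin 3, (-(1 / 4) : ℝ) ≤
          ∑ a₂ : Fin 3 × Fin 3 × Fin 3, ((w36 (Sum.inr a₂) : ℤ) : ℝ) *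
          qf ((((u : ZMod N).val : ℕ) : ℝ) * ((z36 e (Sum.inr a₂) : ℝ) / N)) := by
        refine sum_le_sum fun a _ => ?_
        simp only [w36, Sum.elim_inr]
        push_cast
        have := qf_le ((((u : ZMod N).val : ℕ) : ℝ) * ((z36 e (Sum.inr a) : ℝ) / N))
        linarith
      have h4 : ∑ _a : Fin 3 × Fin 3 × Fin 3, (-(1 / 4) : ℝ) = -(27 / 4) := by
        simp only [sum_const, card_univ, Fintype.card_prod, Fintype.card_fin, nsmul_eq_mul]
        norm_num
      rw [h4] at h3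
      linarith)
    (by
      intro u hu M hM hF
      rw [hB, mem_union, not_or] at hu
      obtain ⟨hu1, hu2⟩ := hu
      have h2 : Uni3 N (e 0) (e 1) (fun l => -e 2 l) (((u : ZMod N).val : ℕ) : ℤ) := by
        by_contra h
        exact hu1 (by rw [hS, mem_filter]; exact ⟨mem_univ _, h⟩)
      have h3 : Uni3 N (e 0) (e 1) (fun l => -e 2 l) (-(((u : ZMod N).val : ℕ) : ℤ)) := by
        by_contra h
        apply hu2
        rw [mem_image]
        refine ⟨-u, ?_, neg_neg u⟩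
        rw [hS, mem_filter]
        refine ⟨mem_univ _, fun h4 => h (Uni3.congr ?_ h4)⟩
        rw [← ZMod.intCast_zmod_eq_zero_iff_dvd]
        push_cast
        rw [ZMod.natCast_zmod_val, ZMod.natCast_zmod_val]
        simp
      have hcop : IsCoprime (((u : ZMod N).val : ℕ) : ℤ) (N : ℤ) :=
        Nat.isCoprime_iff_coprime.2 (ZMod.val_coe_unit_coprime u)
      have h4 := point36 hN hsum hcop h2 h3 hM hF
      have h5 : ((∑ i, w36 i * Q N ((((u : ZMod N).val : ℕ) : ℤ) * z36 e i) : ℤ) : ℝ) ≤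
          ((-(12 * M * N) : ℤ) : ℝ) := by exact_mod_cast h4
      push_cast at h5
      push_cast
      exact h5)
  rw [sum_w36 hN he] at h1
  have h6 : (Fintype.card I36 : ℝ) = 36 := by
    simp only [I36, Fintype.card_sum, Fintype.card_prod, Fintype.card_fin]
    norm_num
  rw [h6] at h1
  norm_num at h1
  have h7 : (13 / 315 - ((exc3 lam : ℚ) : ℝ) / 6) * N.totient ≤ 1231 / 180 * (2 * S.card) := by
    refine le_trans ?_ (h1.trans (mul_le_mul_of_nonneg_left hBc (by norm_num)))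
    exact le_rfl
  linarith

end

end Run7.h850.PE
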