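import Pool.Agent.Run7.h850.PE.Good

set_option autoImplicit false

/-!
Euler's function of numbers without large prime factors, and checks by computation.
-/

open Finset

namespace Run7.h850.PE.R

open Run7.h850.PC

/-- The primes below `127`. -/
def SQ : List ℕ := [2, 3, 5, 7, 11, 13, 17, 19, 23, 29, 31, 37, 41, 43, 47, 53, 59, 61, 67, 71,
  73, 79, 83, 89, 97, 101, 103, 107, 109, 113]

lemma SQ_prime : ∀ p ∈ SQ, p.Prime := by decide +kernel

lemma mem_SQ : ∀ p, p < 127 → p.Prime → p ∈ SQ := by decide +kernel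

/-- The product of the primes below `p`. -/
def below (p : ℕ) : ℕ := (SQ.filter (· < p)).prod

lemma lt_of_dvd_below {p l : ℕ} (hl : l.Prime) (h : l ∣ below p) : l < p := by
  unfold below at h
  rw [Prime.dvd_prod_iff hl.prime] at h
  obtain ⟨q, hq, hlq⟩ := h
  rw [List.mem_filter] at hq
  have h1 := (Nat.prime_dvd_prime_iff_eq hl (SQ_prime q hq.1)).1 hlq
  subst h1
  simpa using hq.2

/-- The product of the primes below `127`. -/
def M126 : ℕ := 31610054640417607788145206291543662493274686990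

lemma M126_eq : M126 = SQ.prod := by decide +kernel

lemma lt_of_dvd_M126 {p : ℕ} (hp : p.Prime) (h : p ∣ M126) : p ∈ SQ := by
  rw [M126_eq, Prime.dvd_prod_iff hp.prime] at h
  obtain ⟨q, hq, hpq⟩ := h
  rwa [(Nat.prime_dvd_prime_iff_eq hp (SQ_prime q hq)).1 hpq]

lemma dvd_M126 {p : ℕ} (h : p ∈ SQ) : p ∣ M126 := by
  rw [M126_eq]
  exact List.dvd_prod h

/-- The product of the prime factors. -/
def radB (n : ℕ) : ℕ := SQ.foldr (fun p m => if n % p = 0 then p * m else m) 1

/-- The product of the `p - 1` over the prime factors. -/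
def psiB (n : ℕ) : ℕ := SQ.foldr (fun p m => if n % p = 0 then (p - 1) * m else m) 1

lemma foldr_eq (L : List ℕ) (n : ℕ) (f : ℕ → ℕ) :
    L.foldr (fun p m => if n % p = 0 then f p * m else m) 1 =
      ((L.filter (fun p => n % p = 0)).map f).prod := by
  induction L with
  | nil => simp
  | cons a L ih =>
    rw [List.foldr_cons, ih, List.filter_cons]
    by_cases h : n % a = 0
    · simp [h]
    · simp [h]

lemma SQ_nodup : SQ.Nodup := by decide +kernel

lemma primeFactors_eq {n : ℕ} (hn : 0 < n) (h : ∀ p, p.Prime → p ∣ n → p ∈ SQ) :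
    n.primeFactors = (SQ.filter (fun p => n % p = 0)).toFinset := by
  ext p
  rw [Nat.mem_primeFactors, List.mem_toFinset, List.mem_filter, decide_eq_true_eq]
  constructor
  · rintro ⟨h1, h2, -⟩
    exact ⟨h p h1 h2, Nat.mod_eq_zero_of_dvd h2⟩
  · rintro ⟨h1, h2⟩
    exact ⟨SQ_prime p h1, Nat.dvd_of_mod_eq_zero h2, hn.ne'⟩

lemma totient_rad {n : ℕ} (hn : 0 < n) (h : ∀ p, p.Prime → p ∣ n → p ∈ SQ) :
    n.totient * radB n = n * psiB n := by
  have h1 := Nat.totient_mul_prod_primeFactors n
  rw [primeFactors_eq hn h] at h1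
  have hnd : (SQ.filter (fun p => n % p = 0)).Nodup := SQ_nodup.filter _
  rw [List.prod_toFinset _ hnd, List.prod_toFinset _ hnd] at h1
  unfold radB psiB
  rw [foldr_eq SQ n (fun p => p), foldr_eq SQ n (fun p => p - 1)]
  exact h1

lemma radB_pos {n : ℕ} : 0 < radB n := by
  unfold radB
  rw [foldr_eq SQ n (fun p => p)]
  apply List.prod_pos
  intro a ha
  rw [List.mem_map] at ha
  obtain ⟨p, hp, rfl⟩ := ha
  exact (SQ_prime p (List.mem_filter.1 hp).1).pos

/-- The check of an entry of the list. -/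
def goodB (K a b : ℕ) (q : ℕ × ℕ) : Bool :=
  decide (0 < q.2) && decide (0 < q.1) && decide (q.1 % q.2 = 0) && decide ((M126 ^ 12) % q.1 = 0) &&
    decide (a * (q.1 / q.2) * psiB (q.1 / q.2) * (4 * q.2 ^ 2 + K ^ 2) * radB q.1 ≤
      b * q.2 * q.1 * psiB q.1 * radB (q.1 / q.2))

lemma good_of_goodB {K a b : ℕ} {q : ℕ × ℕ} (h : goodB K a b q = true) :
    GoodG K a b q.1 q.2 ∧ 0 < q.1 := by
  unfold goodB at h
  simp only [Bool.and_eq_true, decide_eq_true_eq] at h
  obtain ⟨⟨⟨⟨h1, h2⟩, h3⟩, h4⟩, h5⟩ := h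
  obtain ⟨d, r⟩ := q
  simp only at h1 h2 h3 h4 h5 ⊢
  obtain ⟨D, hD⟩ := Nat.dvd_of_mod_eq_zero h3
  have hDr : d / r = D := by rw [hD, Nat.mul_div_cancel_left _ h1]
  have hD0 : 0 < D := by
    rcases Nat.eq_zero_or_pos D with h | h
    · rw [h, mul_zero] at hD; omega
    · exact h
  rw [hDr] at h5
  have hsm : ∀ p, p.Prime → p ∣ d → p ∈ SQ := fun p hp hpd =>
    lt_of_dvd_M126 hp (hp.dvd_of_dvd_pow (hpd.trans (Nat.dvd_of_mod_eq_zero h4)))
  have e1 := totient_rad h2 hsm
  have e2 := totient_rad hD0 fun p hp hpD => hsm p hp (hpD.trans ⟨r, by rw [hD, mul_comm]⟩)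
  refine ⟨⟨h1, Nat.dvd_of_mod_eq_zero h3, ?_⟩, h2⟩
  rw [hDr]
  have hr1 : 0 < radB d * radB D := Nat.mul_pos radB_pos radB_pos
  refine Nat.le_of_mul_le_mul_right (c := radB d * radB D) ?_ hr1
  calc a * D.totient * (4 * r ^ 2 + K ^ 2) * (radB d * radB D)
      = a * (D.totient * radB D) * (4 * r ^ 2 + K ^ 2) * radB d := by ring
    _ = a * D * psiB D * (4 * r ^ 2 + K ^ 2) * radB d := by rw [e2]; ring
    _ ≤ b * r * d * psiB d * radB D := h5
    _ = b * r * (d * psiB d) * radB D := by ring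
    _ = b * r * d.totient * (radB d * radB D) := by rw [← e1]; ring

/-- Not all prime factors are below `127`. -/
def roughB (k : ℕ) : Bool :=
  !(decide (k / Nat.gcd k (M126 ^ 10) = 1)) && decide (Nat.gcd (k / Nat.gcd k (M126 ^ 10)) M126 = 1)

lemma not_smooth_of_roughB {k : ℕ} (h : roughB k = true) : ∃ p, p.Prime ∧ p ∣ k ∧ 127 ≤ p := by
  unfold roughB at h
  simp only [Bool.and_eq_true, Bool.not_eq_true', decide_eq_true_eq, decide_eq_false_iff_not] at h
  obtain ⟨h1, h2⟩ := h
  set e := k / Nat.gcd k (M126 ^ 10) with he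
  have hp := Nat.minFac_prime h1
  have hpe : e.minFac ∣ e := Nat.minFac_dvd e
  refine ⟨e.minFac, hp, hpe.trans (Nat.div_dvd_of_dvd (Nat.gcd_dvd_left _ _)), ?_⟩
  by_contra h
  push Not at h
  have h4 : e.minFac ∣ 1 := by
    rw [← h2]
    exact Nat.dvd_gcd hpe (dvd_M126 (mem_SQ _ h hp))
  exact hp.one_lt.ne' (Nat.dvd_one.1 h4)

/-- The check of a pair. -/
def pairB (B : ℕ) (L : List (ℕ × ℕ)) (p b k : ℕ) : Bool :=
  decide (p * k ≤ B) || !(decide (Nat.gcd k b = 1)) || roughB k ||
    L.any fun q => decide ((p * k) % q.1 = 0)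

/-- The check for all `k`. -/
def rowB (B : ℕ) (L : List (ℕ × ℕ)) (p b : ℕ) : Bool := (List.range (B + 1)).all (pairB B L p b)

lemma row_check {B : ℕ} {L : List (ℕ × ℕ)} {p b : ℕ} (hb : b = below p)
    (h : rowB B L p b = true) {k : ℕ} (hk : k ≤ B) :
    p * k ≤ B ∨ Nat.gcd k (below p) ≠ 1 ∨ (∃ l, l.Prime ∧ l ∣ k ∧ 127 ≤ l) ∨
      ∃ q ∈ L, q.1 ∣ p * k := by
  unfold rowB at h
  rw [List.all_eq_true] at h
  have h1 := h k (List.mem_range.2 (by omega))
  unfold pairB at h1
  simp only [Bool.or_eq_true, decide_eq_true_eq, Bool.not_eq_true', decide_eq_false_iff_not,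
    List.any_eq_true] at h1
  rcases h1 with ((h1 | h1) | h1) | h1
  · exact Or.inl h1
  · exact Or.inr (Or.inl (hb ▸ h1))
  · exact Or.inr (Or.inr (Or.inl (not_smooth_of_roughB h1)))
  · obtain ⟨q, hq, h2⟩ := h1
    exact Or.inr (Or.inr (Or.inr ⟨q, hq, Nat.dvd_of_mod_eq_zero h2⟩))

/-- Every number larger than `B` has a divisor in the list or a large prime factor. -/
theorem exists_in_list {B : ℕ} (hB : 126 ≤ B) (L : List (ℕ × ℕ))
    (hrow : ∀ p ∈ SQ, rowB B L p (below p) = true) : ∀ d : ℕ, B < d →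
      (∀ p, p.Prime → p ∣ d → p < 127) → ∃ q ∈ L, q.1 ∣ d := by
  intro d
  induction d using Nat.strong_induction_on with
  | _ d ih =>
    intro hd hsm
    have hp := Nat.minFac_prime (n := d) (by omega)
    have hpd := Nat.minFac_dvd d
    have h126 := hsm _ hp hpd
    obtain ⟨k, hk⟩ := hpd
    have hkd : k ∣ d := ⟨d.minFac, by rw [mul_comm]; exact hk⟩
    rcases Nat.lt_or_ge B k with hk1 | hk1
    · obtain ⟨q, hq, hqk⟩ := ih k (by
        rw [hk]
        have h2 := hp.two_le
        nlinarith) hk1 (fun p hp' hpk => hsm p hp' (hpk.trans hkd))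
      exact ⟨q, hq, hqk.trans hkd⟩
    · rcases row_check rfl (hrow d.minFac (mem_SQ _ h126 hp)) hk1 with h | h | h | h
      · omega
      · exfalso
        have h1 := Nat.minFac_prime h
        have h2 := Nat.minFac_dvd (Nat.gcd k (below d.minFac))
        have h3 := lt_of_dvd_below h1 (h2.trans (Nat.gcd_dvd_right _ _))
        have h4 := Nat.minFac_le_of_dvd h1.two_le ((h2.trans (Nat.gcd_dvd_left _ _)).trans hkd)
        omega
      · exfalso
        obtain ⟨l, h1, hlk, h2⟩ := h
        have := hsm l h1 (hlk.trans hkd)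
        omega
      · obtain ⟨q, hq, hqk⟩ := h
        exact ⟨q, hq, by rw [hk]; exact hqk⟩

/-- The sum of the values of the tent function, for small denominators. -/
def headB (K d : ℕ) : ℕ := (List.range 5).foldr (fun y m => if Nat.gcd d y = 1 then d - K * y + m else m) 0

lemma headB_eq (K d : ℕ) : headB K d =
    ∑ y ∈ (range 5).filter (fun y => d.Coprime y), (d - K * y) := by
  unfold headB
  rw [sum_filter]
  simp only [sum_range_succ, range_zero, sum_empty, Nat.Coprime]
  have : List.range 5 = [0, 1, 2, 3, 4] := rfl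
  rw [this]
  simp only [List.foldr_cons, List.foldr_nil]
  split_ifs <;> omega

lemma sum_le_headB {K d : ℕ} (hK : d ≤ 5 * K) :
    ∑ x ∈ (range d).filter (fun x => d.Coprime x), (d - K * min x (d - x)) ≤ 2 * headB K d := by
  classical
  have h1 : ∀ x ∈ (range d).filter (fun x => d.Coprime x), (d - K * min x (d - x)) ≤
      (if x < 5 then d - K * x else 0) + (if d - x < 5 then d - K * (d - x) else 0) := by
    intro x _
    rcases Nat.le_total x (d - x) with h | h
    · rw [min_eq_left h]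
      split_ifs with h2
      · omega
      · omega
      · have : 5 * K ≤ K * x := by rw [mul_comm]; exact Nat.mul_le_mul_left _ (by omega)
        omega
      · have : 5 * K ≤ K * x := by rw [mul_comm]; exact Nat.mul_le_mul_left _ (by omega)
        omega
    · rw [min_eq_right h]
      split_ifs with h2 h3
      · omega
      · have : 5 * K ≤ K * (d - x) := by rw [mul_comm]; exact Nat.mul_le_mul_left _ (by omega)
        omega
      · omega
      · have : 5 * K ≤ K * (d - x) := by rw [mul_comm]; exact Nat.mul_le_mul_left _ (by omega)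
        omega
  refine (sum_le_sum h1).trans ?_
  rw [sum_add_distrib, two_mul, headB_eq]
  apply add_le_add
  · rw [← sum_filter, filter_filter]
    apply sum_le_sum_of_subset
    intro x hx
    rw [mem_filter, mem_range] at hx ⊢
    exact ⟨hx.2.2, hx.2.1⟩
  · rw [← sum_filter, filter_filter]
    refine le_trans (le_of_eq ?_) (sum_le_sum_of_subset (s := ((range d).filter
      (fun x => d.Coprime x ∧ d - x < 5)).image (fun x => d - x)) ?_)
    · rw [sum_image]
      intro x hx y hy hxy
      simp only [coe_filter, Set.mem_ofPred_eq, mem_range] at hx hy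
      simp only at hxy
      omega
    · intro y hy
      rw [mem_image] at hy
      obtain ⟨x, hx, rfl⟩ := hy
      rw [mem_filter, mem_range] at hx ⊢
      refine ⟨hx.2.2, ?_⟩
      exact (Nat.coprime_self_sub_right hx.1.le).2 hx.2.1

/-- The check of a small denominator. -/
def smallB (K a b d : ℕ) : Bool :=
  roughB d || (decide ((M126 ^ 12) % d = 0) &&
    decide (4 * K * a * (2 * headB K d) * radB d ≤ b * d * d * psiB d))

lemma small_of_smallB {K a b d : ℕ} (hd : 0 < d) (hK : d ≤ 5 * K) (h : smallB K a b d = true) :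
    (∃ p, p.Prime ∧ p ∣ d ∧ 127 ≤ p) ∨
    4 * K * a * ∑ x ∈ (range d).filter (fun x => d.Coprime x), (d - K * min x (d - x)) ≤
      b * d * d.totient := by
  unfold smallB at h
  simp only [Bool.or_eq_true, Bool.and_eq_true, decide_eq_true_eq] at h
  rcases h with h | ⟨h4, h⟩
  · exact Or.inl (not_smooth_of_roughB h)
  · right
    have hsm : ∀ p, p.Prime → p ∣ d → p ∈ SQ := fun p hp hpd =>
      lt_of_dvd_M126 hp (hp.dvd_of_dvd_pow (hpd.trans (Nat.dvd_of_mod_eq_zero h4)))
    have e1 := totient_rad hd hsm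
    refine Nat.le_of_mul_le_mul_right (c := radB d) ?_ radB_pos
    calc 4 * K * a * (∑ x ∈ (range d).filter (fun x => d.Coprime x), (d - K * min x (d - x))) *
          radB d ≤ 4 * K * a * (2 * headB K d) * radB d :=
          Nat.mul_le_mul_right _ (Nat.mul_le_mul_left _ (sum_le_headB hK))
      _ ≤ b * d * d * psiB d := h
      _ = b * d * (d * psiB d) := by ring
      _ = b * d * d.totient * radB d := by rw [← e1]; ring

end Run7.h850.PE.R
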