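import Pool.Agent.Run7.h850.PE.SevenB

set_option autoImplicit false

/-!
Systems of rank four on the thrice punctured line.
-/

open Finset

namespace Run7.h850.PE

open Pool.Agent.TH571.PCV Run7.h850.PC Pool.Agent.W280.PC Pool.Agent.W280.PE Pool.Agent.W432.PC
open Pool.Agent.TH295.PC (Far I7 z7 w7 pa pb pab pab_surj point7M psi7_eq sum_w7)

universe u

section

variable {R : Type u} [CommRing R] [IsDomain R] [CharZero R]

/-- The `p`-curvature is nonzero for the large primes `p` with `a * p = -1` modulo `N`. -/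
def BadAt (A : Fin 2 → Matrix (Fin 4) (Fin 4) R) (N : ℕ) (a : ℤ) : Prop :=
  ∃ P₀ : ℕ, ∀ p : ℕ, p.Prime → P₀ < p → (N : ℤ) ∣ a * p + 1 →
    ∀ (𝔪 : Ideal R) [𝔪.IsMaximal], (p : R) ∈ 𝔪 → ¬ PCurvZeroAt ![0, 1] A 𝔪

omit [IsDomain R] [CharZero R] in
lemma BadAt.congr {A : Fin 2 → Matrix (Fin 4) (Fin 4) R} {N : ℕ} {a b : ℤ}
    (h : BadAt A N a) (hab : (N : ℤ) ∣ a - b) : BadAt A N b := by
  obtain ⟨P₀, hP⟩ := h
  refine ⟨P₀, fun p hp hpP hb => hP p hp hpP ?_⟩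
  have h1 := dvd_add (hab.mul_right (p : ℤ)) hb
  rwa [show (a - b) * (p : ℤ) + (b * p + 1) = a * p + 1 by ring] at h1

theorem sys4_bad (A : Fin 2 → Matrix (Fin 4) (Fin 4) R) (lam : Fin 3 → Fin 4 → ℚ)
    (h0 : HasExponents (A 0) (lam 0)) (h1 : HasExponents (A 1) (lam 1))
    (h2 : HasExponents (A 0 + A 1) (fun l => -lam 2 l)) (j : Fin 3)
    (hj0 : (lam j 0 - lam j 1).den = 1) (hj1 : (lam j 2 - lam j 3).den = 1)
    (hnr : NonRes (lam (j + 1)) (lam (j + 2)) (lam j)) {N : ℕ} (hN : 0 < N)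
    (hlam : ∀ x l, ∃ m : ℤ, (N : ℚ) * lam x l = m) :
    NonzeroClasses ![0, 1] A N
      (85 / 25764 * (253 / 340 - ((exc63 (lam (j + 1)) (lam (j + 2)) (lam j) : ℚ) : ℝ))) := by
  classical
  have : NeZero N := ⟨hN.ne'⟩
  choose e he using hlam
  have hNq : (N : ℚ) ≠ 0 := by exact_mod_cast hN.ne'
  have hl : ∀ x l, (e x l : ℚ) / N = lam x l := by
    intro x l
    rw [← he x l]
    field_simp
  obtain ⟨n1, n2, n3, n4, n5, n6⟩ := hnr
  have hsumq : ∀ i k, (N : ℚ) * (lam (j + 1) i + lam (j + 2) k + lam j 0) =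
      (e (j + 1) i + e (j + 2) k + e j 0 : ℤ) := by
    intro i k
    push_cast
    rw [← he, ← he, ← he]
    ring
  have hN1 : 1 < N := by
    by_contra h
    have h3 : N = 1 := by omega
    refine den_ne_one hN (hsumq 0 0) (n4 0 0) ?_
    rw [h3]
    simp
  have hdint : ∀ q : ℚ, q.den = 1 → ∀ z : ℤ, (N : ℚ) * q = z → (N : ℤ) ∣ z := by
    intro q hq z hz
    refine ⟨q.num, ?_⟩
    have h3 : (q.num : ℚ) = q := Rat.coe_int_num_of_den_eq_one hq
    have h4 : ((N : ℤ) * q.num : ℚ) = z := by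
      rw [h3, ← hz]
      push_cast
      rfl
    exact_mod_cast h4.symm
  have hd0 : (N : ℤ) ∣ e j 0 - e j 1 := hdint _ hj0 _ (by push_cast; rw [← he, ← he]; ring)
  have hd1 : (N : ℤ) ∣ e j 2 - e j 3 := hdint _ hj1 _ (by push_cast; rw [← he, ← he]; ring)
  have hz : ∀ i, ¬ (N : ℤ) ∣ z7 (e (j + 1)) (e (j + 2)) (e j 0) (e j 2) i := by
    rintro (⟨g, q⟩ | (u | (⟨i, k, s⟩ | ⟨t, q⟩)))
    · simp only [z7, Sum.elim_inl]
      fin_cases g
      · refine den_ne_one hN (q := lam (j + 1) (pb q) - lam (j + 1) (pa q)) ?_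
          (n1 _ _ (pab q).symm)
        change _ = ((e (j + 1) (pb q) - e (j + 1) (pa q) : ℤ) : ℚ)
        push_cast
        rw [← he, ← he]
        ring
      · refine den_ne_one hN (q := lam (j + 2) (pb q) - lam (j + 2) (pa q)) ?_
          (n2 _ _ (pab q).symm)
        change _ = ((e (j + 2) (pb q) - e (j + 2) (pa q) : ℤ) : ℚ)
        push_cast
        rw [← he, ← he]
        ring
    · simp only [z7, Sum.elim_inl, Sum.elim_inr]
      refine den_ne_one hN (q := lam j 2 - lam j 0) ?_ n3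
      push_cast
      rw [← he, ← he]
      ring
    · simp only [z7, Sum.elim_inl, Sum.elim_inr]
      fin_cases s
      · exact den_ne_one hN (hsumq i k) (n4 i k)
      · refine den_ne_one hN (q := lam (j + 1) i + lam (j + 2) k + lam j 2) ?_ (n5 i k)
        change _ = ((e (j + 1) i + e (j + 2) k + e j 2 : ℤ) : ℚ)
        push_cast
        rw [← he, ← he, ← he]
        ring
    · simp only [z7, Sum.elim_inr]
      refine den_ne_one hN (q := (lam (j + 1) 0 + lam (j + 1) t.succ) + (lam (j + 2) (pa q) +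
        lam (j + 2) (pb q)) + (lam j 0 + lam j 2)) ?_
        (n6 0 t.succ (pa q) (pb q) (Fin.succ_ne_zero t).symm (pab q))
      push_cast
      simp only [← he]
      ring
  have he0 : ∀ i : Fin 2, HasExponents (A i)
      (fun l => ((![e 0, e 1] : Fin 2 → Fin 4 → ℤ) i l : ℚ) / N) := by
    intro i
    fin_cases i
    · simpa [hl] using h0
    · simpa [hl] using h1
  have he2 : HasExponents (∑ i, A i) (fun l => (((fun l => -e 2 l) l : ℤ) : ℚ) / N) := by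
    have h3 : (fun l => (((fun l => -e 2 l) l : ℤ) : ℚ) / N) = fun l => -lam 2 l := by
      funext l
      push_cast
      rw [neg_div, hl]
    rw [h3, Fin.sum_univ_two]
    exact h2
  have htr := trace_rel A N hN1 ![e 0, e 1] (fun l => -e 2 l) he0 he2
  have hsum : ∑ l, e 0 l + ∑ l, e 1 l + ∑ l, e 2 l = 0 := by
    rw [Fin.sum_univ_two, sum_neg_distrib] at htr
    simp only [Matrix.cons_val_zero, Matrix.cons_val_one] at htr
    linarith
  have hsumj : ∑ l, e (j + 1) l + ∑ l, e (j + 2) l + ∑ l, e j l = 0 := by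
    fin_cases j
    · change ∑ l, e 1 l + ∑ l, e 2 l + ∑ l, e 0 l = 0
      linarith
    · change ∑ l, e 2 l + ∑ l, e 0 l + ∑ l, e 1 l = 0
      linarith
    · change ∑ l, e 0 l + ∑ l, e 1 l + ∑ l, e 2 l = 0
      linarith
  refine collect _ _ N hN _ _ (count63 (he (j + 1)) (he (j + 2)) (he j) hsumj hd0 hd1 hz
    (fun u => BadAt A N (((u : ZMod N).val : ℕ) : ℤ)) fun u hu hu' => ?_) fun u hu =>
    ⟨(((u : ZMod N).val : ℕ) : ℤ), by push_cast; rw [ZMod.natCast_zmod_val], (mem_filter.1 hu).2⟩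
  have hu'' : ¬ BadAt A N (-(((u : ZMod N).val : ℕ) : ℤ)) := by
    intro h
    refine hu' (h.congr ?_)
    rw [← ZMod.intCast_zmod_eq_zero_iff_dvd]
    push_cast
    rw [ZMod.natCast_zmod_val, ZMod.natCast_zmod_val]
    simp
  have hg := good_of_not ![0, 1] unit01 A N hN1 ![e 0, e 1] (fun l => -e 2 l) he0 he2
    (((u : ZMod N).val : ℕ) : ℤ) hu hu''
  simp only [Matrix.cons_val_zero, Matrix.cons_val_one, neg_neg] at hg
  obtain ⟨X, Y, C, h⟩ := hg
  fin_cases j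
  · exact ⟨Y, C, X, h.rot⟩
  · exact ⟨C, X, Y, h.rot.rot⟩
  · exact ⟨X, Y, C, h⟩

end

/-! ### Cases where the excess is small -/

lemma exc63_le {x y z : Fin 4 → ℚ} {A B : ℚ}
    (h4 : ∀ i k, gam (x i + y k + z 0) ≤ A) (h5 : ∀ i k, gam (x i + y k + z 2) ≤ A)
    (h6 : ∀ i i' k k', i ≠ i' → k ≠ k' →
      gam ((x i + x i') + (y k + y k') + (z 0 + z 2)) ≤ A)
    (h1 : ∀ l l', l ≠ l' → -gam (x l - x l') ≤ B) (h2 : ∀ l l', l ≠ l' → -gam (y l - y l') ≤ B)
    (h3 : -gam (z 2 - z 0) ≤ B) : exc63 x y z ≤ 100 * A + 100 * B := by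
  have g1 : ∑ i, ∑ k, (gam (x i + y k + z 0) + gam (x i + y k + z 2)) ≤
      ∑ _i : Fin 4, ∑ _k : Fin 4, (A + A) :=
    sum_le_sum fun i _ => sum_le_sum fun k _ => add_le_add (h4 i k) (h5 i k)
  have g2 : ∑ t : Fin 3, ∑ q : Fin 6,
      gam ((x 0 + x t.succ) + (y (pa q) + y (pb q)) + (z 0 + z 2)) ≤
      ∑ _t : Fin 3, ∑ _q : Fin 6, A :=
    sum_le_sum fun t _ => sum_le_sum fun q _ =>
      h6 0 t.succ (pa q) (pb q) (Fin.succ_ne_zero t).symm (pab q)
  have g3 : ∑ _q : Fin 6, -(B + B) ≤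
      ∑ q : Fin 6, (gam (x (pb q) - x (pa q)) + gam (y (pb q) - y (pa q))) := by
    refine sum_le_sum fun q _ => ?_
    have a1 := h1 _ _ (pab q).symm
    have a2 := h2 _ _ (pab q).symm
    linarith
  simp only [sum_const, card_univ, Fintype.card_fin, nsmul_eq_mul] at g1 g2 g3
  push_cast at g1 g2 g3
  unfold exc63
  rw [pr1_eq, pr2_eq]
  linarith

lemma exc63_large {x y z : Fin 4 → ℚ} (h : Large63 x y z) : exc63 x y z < 253 / 340 := by
  obtain ⟨h1, h2, h3, h4, h5, h6⟩ := h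
  have hg : ∀ q : ℚ, 269 ≤ q.den → gam q ≤ 1 / 269 := fun q hq =>
    (le_abs_self _).trans (by exact_mod_cast gam_le (M := 269) (by norm_num) hq)
  have hg' : ∀ q : ℚ, 269 ≤ q.den → -gam q ≤ 1 / 269 := fun q hq =>
    (neg_le_abs _).trans (by exact_mod_cast gam_le (M := 269) (by norm_num) hq)
  have := exc63_le (x := x) (y := y) (z := z) (A := 1 / 269) (B := 1 / 269)
    (fun i k => hg _ (h4 i k)) (fun i k => hg _ (h5 i k))
    (fun i i' k k' a b => hg _ (h6 i i' k k' a b)) (fun l l' a => hg' _ (h1 l l' a))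
    (fun l l' a => hg' _ (h2 l l' a)) (hg' _ h3)
  norm_num at this
  linarith

lemma Rough13.not {q : ℚ} (h : Rough13 q) :
    ¬ 2 ∣ q.den ∧ ¬ 3 ∣ q.den ∧ ¬ 5 ∣ q.den ∧ ¬ 7 ∣ q.den ∧ ¬ 11 ∣ q.den := by
  refine ⟨fun h2 => ?_, fun h2 => ?_, fun h2 => ?_, fun h2 => ?_, fun h2 => ?_⟩
  · have := h 2 Nat.prime_two h2
    omega
  · have := h 3 Nat.prime_three h2
    omega
  · have := h 5 Nat.prime_five h2
    omega
  · have := h 7 (by norm_num) h2
    omega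
  · have := h 11 (by norm_num) h2
    omega

lemma chk13a : ∀ d ∈ List.range 221, (d ≠ 0 ∧ d ≠ 1 ∧ ¬ 2 ∣ d ∧ ¬ 3 ∣ d ∧ ¬ 5 ∣ d ∧ ¬ 7 ∣ d ∧
    ¬ 11 ∣ d) → ∏ p ∈ d.primeFactors, (-(p : ℤ)) ≤ 0 := by
  decide +kernel

lemma chk13b : ∀ d ∈ List.range 347, (d ≠ 0 ∧ d ≠ 1 ∧ ¬ 2 ∣ d ∧ ¬ 3 ∣ d ∧ ¬ 5 ∣ d ∧ ¬ 7 ∣ d ∧
    ¬ 11 ∣ d ∧ ¬ d.minFac = d) → -347 * ∏ p ∈ d.primeFactors, (-(p : ℤ)) ≤ (d : ℤ) ^ 2 := by
  decide +kernel

lemma gam_rough13 {q : ℚ} (h : Rough13 q) (h1 : q.den ≠ 1) : gam q ≤ 1 / 221 := by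
  rcases Nat.lt_or_ge q.den 221 with hlt | hge
  · obtain ⟨h2, h3, h5, h6, h10⟩ := h.not
    have h7 := chk13a q.den (List.mem_range.2 hlt) ⟨q.den_pos.ne', h1, h2, h3, h5, h6, h10⟩
    have h8 : ∏ p ∈ q.den.primeFactors, (-(p : ℚ)) ≤ 0 := by exact_mod_cast h7
    unfold gam
    refine (div_nonpos_of_nonpos_of_nonneg h8 (by positivity)).trans (by norm_num)
  · exact (le_abs_self _).trans (by exact_mod_cast gam_le (M := 221) (by norm_num) hge)

lemma gam_rough13' {q : ℚ} (h : Rough13 q) (h1 : q.den ≠ 1) (hp : q.den.Prime → 347 ≤ q.den) :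
    -gam q ≤ 1 / 347 := by
  rcases Nat.lt_or_ge q.den 347 with hlt | hge
  · obtain ⟨h2, h3, h5, h6, h10⟩ := h.not
    have h7 := chk13b q.den (List.mem_range.2 hlt) ⟨q.den_pos.ne', h1, h2, h3, h5, h6, h10,
      fun h8 => by
      have h9 : q.den.Prime := by
        rw [← h8]
        exact Nat.minFac_prime h1
      have := hp h9
      omega⟩
    have h8 : -347 * ∏ p ∈ q.den.primeFactors, (-(p : ℚ)) ≤ (q.den : ℚ) ^ 2 := by exact_mod_cast h7
    have hd : (0 : ℚ) < (q.den : ℚ) ^ 2 := by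
      have : (0 : ℚ) < q.den := by exact_mod_cast q.den_pos
      positivity
    unfold gam
    rw [← neg_div, div_le_div_iff₀ hd (by norm_num)]
    linarith
  · exact (neg_le_abs _).trans (by exact_mod_cast gam_le (M := 347) (by norm_num) hge)

lemma exc63_rough {x y z : Fin 4 → ℚ} (hn : NonRes x y z) (h : Rough63 x y z) :
    exc63 x y z < 253 / 340 := by
  obtain ⟨h1, h2, h3, h4, h5, h6⟩ := h
  obtain ⟨n1, n2, n3, n4, n5, n6⟩ := hn
  have := exc63_le (x := x) (y := y) (z := z) (A := 1 / 221) (B := 1 / 347)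
    (fun i k => gam_rough13 (h4 i k) (n4 i k)) (fun i k => gam_rough13 (h5 i k) (n5 i k))
    (fun i i' k k' a b => gam_rough13 (h6 i i' k k' a b) (n6 i i' k k' a b))
    (fun l l' a => gam_rough13' (h1 l l').1 (n1 l l' a) (h1 l l').2)
    (fun l l' a => gam_rough13' (h2 l l').1 (n2 l l' a) (h2 l l').2)
    (gam_rough13' h3.1 n3 h3.2)
  norm_num at this
  linarith

end Run7.h850.PE
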